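import Pool.Agent.W534.TateDefs

/-!
# Systems of `ℓ`-adic cohomology theories: definitions
-/

set_option autoImplicit false

open CategoryTheory AlgebraicGeometry

universe u v

namespace Pool.Agent.Helper11K9.Dens

open Pool.Agent.H914 Pool.Agent.H914.VarClass Pool.Agent.H914.VarClass.Obj
  Pool.Agent.H914.WeilCohomology Pool.Agent.W534

variable {k : Type u} [Field k] {𝒱 : VarClass k}

/-- The `ℓ`-adic cohomology theories for the varieties in `𝒱`, over an algebraic closure of the field
with `p` elements: for every prime number `ℓ ≠ p` a Weil cohomology `W ℓ` with coefficient field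
isomorphic to the field of `ℓ`-adic numbers, and Frobenius endomorphisms `Fr X` of the varieties `X`,
relative to the fields with `p ^ e X` elements, that do not depend on `ℓ`. (The theories `W ℓ` for the
other `ℓ` are arbitrary and play no role.) -/
structure AdicSystem (ops : CycleOps 𝒱) (p : ℕ) where
  W : ℕ → WeilCohomology.{u, 0} ops
  coeff : ∀ (ℓ : ℕ) [Fact ℓ.Prime], ℓ ≠ p → Nonempty ((W ℓ).K ≃+* ℚ_[ℓ])
  Fr : ∀ X : 𝒱.Obj, X ⟶ X
  e : 𝒱.Obj → ℕ
  Φ : ∀ ℓ, FrobSystem (W ℓ) p
  Fr_eq : ∀ ℓ X, (Φ ℓ).Fr X = Fr X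
  e_eq : ∀ ℓ X, (Φ ℓ).e X = e X

end Pool.Agent.Helper11K9.Dens
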