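import Pool.Agent.Helper11K9.Dens.DensDefs
import Pool.Agent.W401.Cheb.Main

/-!
# Lower density of the primes with Frobenius elements in a given set
-/

set_option autoImplicit false

namespace Pool.Agent.Helper11K9.Dens

open NumberField Filter Topology Pool.Agent.W401.Cheb

lemma HasLowerDensity.mono {S : Set ℕ} {δ δ' : ℝ} (h : HasLowerDensity S δ) (hδ : δ' ≤ δ) :
    HasLowerDensity S δ' := by
  intro ε hε
  obtain ⟨N₀, hN⟩ := h ε hε
  refine ⟨N₀, fun N hN' => le_trans ?_ (hN N hN')⟩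
  exact mul_le_mul_of_nonneg_right (by linarith) (Nat.cast_nonneg _)

/-- **The primes with Frobenius elements in the set `S`** stable under conjugation have lower density
`#S / #G`. -/
theorem lowerDensity_of_frob (L : Type) [Field L] [NumberField L] [IsGalois ℚ L]
    (S : Set Gal(L/ℚ)) (hS : ∀ g ∈ S, ∀ h, h⁻¹ * g * h ∈ S) (T : Set ℕ) (D : ℕ) (hD : 0 < D)
    (hT : ∀ (ℓ : ℕ) [Fact ℓ.Prime], ¬ ℓ ∣ D →
      (∀ φ : 𝓞 L →+* AlgebraicClosure (ZMod ℓ), ∃ σ ∈ S, HasFrob ℓ φ σ) → ℓ ∈ T) :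
    HasLowerDensity T ((Nat.card S : ℝ) / Nat.card Gal(L/ℚ)) := by
  classical
  obtain ⟨D', hD', hTor⟩ := torsor L
  have hGpos : (0 : ℝ) < Nat.card Gal(L/ℚ) := by exact_mod_cast Nat.card_pos
  set a : ℕ → ℝ := fun ℓ => ∑ g ∈ S.toFinset, (xp L g ℓ : ℝ) with ha
  set b : ℕ → ℝ := fun ℓ => if ℓ ∣ D * D' then 0 else a ℓ with hb
  have h1 : Tendsto (M a) atTop (𝓝 (Nat.card S : ℝ)) := by
    have h2 : Tendsto (fun N => ∑ g ∈ S.toFinset, M (fun ℓ => (xp L g ℓ : ℝ)) N) atTop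
        (𝓝 (∑ g ∈ S.toFinset, (1 : ℝ))) :=
      tendsto_finsetSum _ (fun g _ => chebotarev L g)
    rw [Finset.sum_const, nsmul_eq_mul, mul_one, Set.toFinset_card, ← Nat.card_eq_fintype_card]
      at h2
    refine h2.congr (fun N => ?_)
    rw [ha, M_sum]
  have h2 : Tendsto (M b) atTop (𝓝 (Nat.card S : ℝ)) := by
    refine M_congr (Nat.mul_pos hD hD') (fun ℓ _ hℓ => ?_) h1
    rw [hb]
    beta_reduce
    rw [if_neg hℓ]
  have h3 : ∀ ℓ : ℕ, ℓ.Prime → b ℓ ≤ Nat.card Gal(L/ℚ) * (if ℓ ∈ T then 1 else 0) := by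
    intro ℓ hℓ
    have : Fact ℓ.Prime := ⟨hℓ⟩
    rw [hb]
    beta_reduce
    split_ifs with h4 h5 h5
    · rw [mul_one]; exact hGpos.le
    · rw [mul_zero]
    · rw [mul_one]
      have h6 : ¬ ℓ ∣ D' := fun h => h4 (h.mul_left D)
      have h7 := sum_xp (hTor ℓ h6)
      rw [ha]
      beta_reduce
      calc ∑ g ∈ S.toFinset, (xp L g ℓ : ℝ) ≤ ∑ g : Gal(L/ℚ), (xp L g ℓ : ℝ) :=
            Finset.sum_le_sum_of_subset_of_nonneg (Finset.subset_univ _)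
              (fun _ _ _ => Nat.cast_nonneg _)
        _ = Nat.card Gal(L/ℚ) := by rw [← h7]; push_cast; rfl
    · rw [mul_zero]
      have h6 : ¬ ℓ ∣ D' := fun h => h4 (h.mul_left D)
      have hnot : ¬ ℓ ∣ D := fun h => h4 (h.mul_right D')
      have h8 : ¬ ∀ φ : 𝓞 L →+* AlgebraicClosure (ZMod ℓ), ∃ σ ∈ S, HasFrob ℓ φ σ :=
        fun h => h5 (hT ℓ hnot h)
      push Not at h8
      obtain ⟨φ, hφ⟩ := h8
      obtain ⟨τ, hτ⟩ := Pool.Agent.W401.Cheb.exists_frob (hTor ℓ h6) φ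
      rw [ha]
      beta_reduce
      apply le_of_eq
      apply Finset.sum_eq_zero
      intro g hg
      rw [Set.mem_toFinset] at hg
      rw [xp_eq (hTor ℓ h6) hτ, Nat.cast_eq_zero, Nat.card_eq_zero]
      left
      refine ⟨fun σ => hφ τ ?_ hτ⟩
      obtain ⟨σ, h12⟩ := σ
      have h9 := hS g hg σ⁻¹
      have h11 : σ⁻¹⁻¹ * g * σ⁻¹ = τ := by
        rw [← h12]
        group
      rwa [h11] at h9
  have h4 : ∀ N, M b N ≤ Nat.card Gal(L/ℚ) * (Nat.card {ℓ : ℕ // ℓ ≤ N ∧ ℓ.Prime ∧ ℓ ∈ T} /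
      Nat.primeCounting N) := by
    intro N
    refine (M_mono h3 N).trans (le_of_eq ?_)
    rw [M_smul]
    congr 1
    unfold M
    congr 1
    rw [Finset.sum_boole]
    congr 1
    rw [Nat.subtype_card ((pr N).filter (fun ℓ => ℓ ∈ T))]
    intro ℓ
    rw [Finset.mem_filter, mem_pr, and_assoc]
  intro ε hε
  have h5 : ∀ᶠ N in atTop, (Nat.card S : ℝ) - ε * Nat.card Gal(L/ℚ) < M b N :=
    h2.eventually (lt_mem_nhds (by nlinarith))
  obtain ⟨N₀, hN₀⟩ := Filter.eventually_atTop.1 h5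
  refine ⟨max N₀ 2, fun N hN => ?_⟩
  have h6 := (hN₀ N ((le_max_left _ _).trans hN)).trans_le (h4 N)
  have hp : (0 : ℝ) < Nat.primeCounting N := by
    have h7 : Nat.primeCounting N ≠ 0 := by
      rw [Ne, Nat.primeCounting_eq_zero_iff]
      have := (le_max_right N₀ 2).trans hN
      omega
    exact_mod_cast Nat.pos_of_ne_zero h7
  have h8 : ((Nat.card S : ℝ) / Nat.card Gal(L/ℚ) - ε) * Nat.primeCounting N * Nat.card Gal(L/ℚ) ≤
      Nat.card {ℓ : ℕ // ℓ ≤ N ∧ ℓ.Prime ∧ ℓ ∈ T} * Nat.card Gal(L/ℚ) := by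
    have h9 : ((Nat.card S : ℝ) / Nat.card Gal(L/ℚ) - ε) * Nat.primeCounting N * Nat.card Gal(L/ℚ) =
        ((Nat.card S : ℝ) - ε * Nat.card Gal(L/ℚ)) * Nat.primeCounting N := by
      field_simp
    rw [h9]
    calc ((Nat.card S : ℝ) - ε * Nat.card Gal(L/ℚ)) * Nat.primeCounting N
        ≤ (Nat.card Gal(L/ℚ) * (Nat.card {ℓ : ℕ // ℓ ≤ N ∧ ℓ.Prime ∧ ℓ ∈ T} /
          Nat.primeCounting N)) * Nat.primeCounting N :=
          mul_le_mul_of_nonneg_right h6.le hp.le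
      _ = _ := by field_simp
  exact le_of_mul_le_mul_right h8 hGpos

end Pool.Agent.Helper11K9.Dens
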