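import Pool.Agent.Helper11K9.Dens.RelDefs

/-!
# Automorphisms without invariant exotic relations: definition
-/

set_option autoImplicit false

namespace Pool.Agent.Helper11K9.Dens

open Polynomial

variable {J I : Type} [Fintype J] [Fintype I]

/-- There are a number field `E` in the complex numbers, normal over the rational numbers, which
contains all the roots, an embedding `τ` of `E` in the algebraic closure of `K`, and an automorphism `σ`
of `E` such that `τ (σ z)` and `τ z` are conjugate over `K` for all roots `z` of the `P j`, and such that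
`σ` fixes no nonzero rational linear combination of relative exotic relations. -/
def HasGoodAutomorphism (K : Type*) [Field K] (P : J → ℚ[X]) (e : J → ℕ) (Q : I → ℚ[X])
    (e' : I → ℕ) : Prop :=
  ∃ (E : IntermediateField ℚ ℂ) (_ : FiniteDimensional ℚ E) (_ : Normal ℚ E)
    (τ : E →+* AlgebraicClosure K) (σ : Gal(E/ℚ)),
    (∀ z : ℂ, ((∃ j, aeval z (P j) = 0) ∨ ∃ i, aeval z (Q i) = 0) → z ∈ E) ∧
    (∀ z : E, (∃ j, aeval z (P j) = 0) → minpoly K (τ (σ z)) = minpoly K (τ z)) ∧
    ∀ f ∈ relativeSpace P e Q e', (∀ j, ∀ z : E, f j (σ z) = f j z) → f = 0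

end Pool.Agent.Helper11K9.Dens
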