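import Pool.Agent.Helper11K9.Dens.RelD

/-!
# The densities
-/

set_option autoImplicit false
set_option linter.unusedSectionVars false

namespace Pool.Agent.Helper11K9.Dens

open Polynomial NumberField Pool.Agent.W401.Cheb

variable {J : Type} [Fintype J] {P : J → ℚ[X]} {e w : J → ℕ}

/-- The splitting field. -/
lemma exists_E (hW : IsWeilFamily P w) : ∃ E : IntermediateField ℚ ℂ,
    (∃ _ : NumberField E, IsGalois ℚ E) ∧ (∀ j (z : ℂ), aeval z (P j) = 0 → z ∈ E) ∧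
      ((∏ j, P j).map (algebraMap ℚ E)).Splits := by
  classical
  set Q : ℚ[X] := ∏ j, P j with hQ
  have hQ0 : Q ≠ 0 := Finset.prod_ne_zero_iff.2 (fun j _ => hW.ne j)
  have hs : Q.IsSplittingField ℚ (IntermediateField.adjoin ℚ (Q.rootSet ℂ)) :=
    IntermediateField.adjoin_rootSet_isSplittingField (IsAlgClosed.splits _)
  have hfd : FiniteDimensional ℚ (IntermediateField.adjoin ℚ (Q.rootSet ℂ)) :=
    IsSplittingField.finiteDimensional _ Q
  have hn : Normal ℚ (IntermediateField.adjoin ℚ (Q.rootSet ℂ)) :=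
    Normal.of_isSplittingField Q
  refine ⟨IntermediateField.adjoin ℚ (Q.rootSet ℂ), ⟨{ }, { }⟩, ?_, hs.splits⟩
  intro j z hz
  apply IntermediateField.subset_adjoin
  rw [mem_rootSet]
  refine ⟨hQ0, ?_⟩
  rw [hQ, map_prod]
  exact Finset.prod_eq_zero (Finset.mem_univ j) hz

/-- The density of the primes with a Frobenius element without invariants. -/
theorem density_aux {J' : Type} [Fintype J'] (hW : IsWeilFamily P w) (p : ℕ) (hp : 0 < p)
    (E : IntermediateField ℚ ℂ)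
    [NumberField E] [IsGalois ℚ E] (hspl : ((∏ j, P j).map (algebraMap ℚ E)).Splits)
    (V : Submodule ℚ (J' → ℂ → ℚ)) [Module.Finite ℚ V]
    (hV : ∀ σ, ∀ f ∈ V, fnRep E J' σ f ∈ V) (c : Gal(E/ℚ)) (hc : ∀ f ∈ V, fnRep E J' c f = -f)
    (K : ℕ → Type) [∀ ℓ, Field (K ℓ)] [∀ ℓ, CharZero (K ℓ)]
    (hK : ∀ (ℓ : ℕ) [Fact ℓ.Prime], ℓ ≠ p → Nonempty (K ℓ ≃+* ℚ_[ℓ])) (T : Set ℕ)
    (hT : ∀ (ℓ : ℕ) [Fact ℓ.Prime], ℓ ≠ p → (∀ (τ : E →+* AlgebraicClosure (K ℓ)),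
      ∃ σ ∈ noInv E V, ∀ j, ∀ z : E, aeval z (P j) = 0 →
        minpoly (K ℓ) (τ (σ z)) = minpoly (K ℓ) (τ z)) → ℓ ∈ T) :
    HasLowerDensity T ((1 / 2 : ℝ) ^ Module.finrank ℚ V) := by
  classical
  have hQ0 : (∏ j, P j) ≠ 0 := Finset.prod_ne_zero_iff.2 (fun j _ => hW.ne j)
  obtain ⟨D, hD, hfrob⟩ := frob_minpoly E (∏ j, P j) hQ0 hspl
  have h1 := lowerDensity_of_frob E (noInv E V) (fun g hg h => noInv_conj E hV g hg h) T (D * p)
    (Nat.mul_pos hD hp) (by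
      intro ℓ _ hℓ hφ
      have hℓD : ¬ ℓ ∣ D := fun h => hℓ (h.mul_right p)
      have hℓp : ℓ ≠ p := by
        rintro rfl
        exact hℓ (dvd_mul_left _ _)
      refine hT ℓ hℓp (fun τ => ?_)
      obtain ⟨κ⟩ := hK ℓ hℓp
      obtain ⟨φ, h2⟩ := hfrob ℓ hℓD (K ℓ) κ (AlgebraicClosure (K ℓ)) τ
      obtain ⟨σ, hσ, hφσ⟩ := hφ φ
      refine ⟨σ, hσ, fun j z hz => h2 σ hφσ z ?_⟩
      rw [map_prod]
      exact Finset.prod_eq_zero (Finset.mem_univ j) hz)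
  refine h1.mono ?_
  have h2 := card_noInv E hV c hc
  have h3 : (0 : ℝ) < Nat.card Gal(E/ℚ) := by exact_mod_cast Nat.card_pos
  have h4 : (Nat.card Gal(E/ℚ) : ℝ) ≤ 2 ^ Module.finrank ℚ V * Nat.card (noInv E V) := by
    exact_mod_cast h2
  rw [le_div_iff₀ h3, one_div, inv_pow]
  rw [inv_mul_le_iff₀ (by positivity)]
  exact h4

section Rel

variable {J₀ J₁ : Type} [Fintype J₀] [Fintype J₁] [DecidableEq J₀] [DecidableEq J₁]
  {P : J₀ ⊕ J₁ → ℚ[X]} {e w : J₀ ⊕ J₁ → ℕ}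

lemma countP_inl {A M : Type*} (l : List A) (F : A → J₀ × M) (j : J₀) (f : M)
    [DecidableEq M] (g : (J₀ ⊕ J₁) × M → Bool) (hg : ∀ y, g y = true ↔ y = (Sum.inl j, f)) :
    (l.map (fun x => ((Sum.inl (F x).1 : J₀ ⊕ J₁), (F x).2))).countP g =
      (l.map F).count (j, f) := by
  induction l with
  | nil => rfl
  | cons a l ih =>
    rw [List.map_cons, List.map_cons, List.countP_cons, List.count_cons, ih]
    congr 1
    by_cases h : F a = (j, f)
    · rw [if_pos, if_pos]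
      · rw [h, beq_self_eq_true]
      · rw [hg, h]
    · rw [if_neg, if_neg]
      · rw [beq_iff_eq]; exact h
      · rw [hg]
        intro h1
        apply h
        have h2 := congrArg Prod.fst h1
        have h3 := congrArg Prod.snd h1
        exact Prod.ext (Sum.inl_injective h2) h3

lemma countP_inr {A M : Type*} (l : List A) (F : A → J₁ × M) (j : J₀) (f : M)
    (g : (J₀ ⊕ J₁) × M → Bool) (hg : ∀ y, g y = true ↔ y = (Sum.inl j, f)) :
    (l.map (fun x => ((Sum.inr (F x).1 : J₀ ⊕ J₁), (F x).2))).countP g = 0 := by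
  rw [List.countP_eq_zero]
  intro y hy h1
  obtain ⟨x, _, rfl⟩ := List.mem_map.1 hy
  rw [hg] at h1
  exact absurd (congrArg Prod.fst h1) (by simp)

/-- The relations are balanced. -/
theorem perm_rel' (hW : IsWeilFamily P w) (he : ∀ j, 0 < e j) {E : IntermediateField ℚ ℂ}
    (hE : ∀ j (z : ℂ), aeval z (P j) = 0 → z ∈ E) [FiniteDimensional ℚ E] [Normal ℚ E]
    {K L' : Type*} [Field K] [Field L'] [CharZero L'] [Algebra K L'] (τ : E →+* L') {p : ℕ}
    {σ : Gal(E/ℚ)}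
    (hσ : ∀ j, ∀ z : E, aeval z (P (Sum.inl j)) = 0 →
      minpoly K (τ (σ z)) = minpoly K (τ z))
    (hnI : σ ∈ noInv E (relSpace Sum.inl P e)) (l : List (J₀ × L')) (l' : List (J₁ × L'))
    (hl : ∀ x ∈ l, aeval x.2 (P (Sum.inl x.1)) = 0)
    (hl' : ∀ x ∈ l', aeval x.2 (P (Sum.inr x.1)) = 0)
    (hrel : ∃ N M : ℕ, 0 < N ∧ (∀ x ∈ l, e (Sum.inl x.1) ∣ N) ∧ (∀ x ∈ l', e (Sum.inr x.1) ∣ N) ∧
      (l.map (fun x => x.2 ^ (N / e (Sum.inl x.1)))).prod *
        (l'.map (fun x => x.2 ^ (N / e (Sum.inr x.1)))).prod = (p : L') ^ M) :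
    (l.map (fun x => (x.1, minpoly K x.2))).Perm
      (l.map (fun x => (x.1, minpoly K ((w (Sum.inl x.1) : L') / x.2)))) := by
  classical
  obtain ⟨N, M, hN, h1, h2, h3⟩ := hrel
  rw [List.perm_iff_count]
  rintro ⟨j, f⟩
  have key := count_of_noInv hW hE Sum.inl he τ hσ hnI
    (l.map (fun x => ((Sum.inl x.1 : J₀ ⊕ J₁), x.2)) ++
      l'.map (fun x => ((Sum.inr x.1 : J₀ ⊕ J₁), x.2)))
    (by
      intro x hx
      rcases List.mem_append.1 hx with h | h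
      · obtain ⟨y, hy, rfl⟩ := List.mem_map.1 h
        exact hl y hy
      · obtain ⟨y, hy, rfl⟩ := List.mem_map.1 h
        exact hl' y hy)
    ⟨N, M, hN, by
      intro x hx
      rcases List.mem_append.1 hx with h | h
      · obtain ⟨y, hy, rfl⟩ := List.mem_map.1 h
        exact h1 y hy
      · obtain ⟨y, hy, rfl⟩ := List.mem_map.1 h
        exact h2 y hy, by
      rw [List.map_append, List.prod_append, List.map_map, List.map_map]
      exact h3⟩ j f (fun y => decide (y = (Sum.inl j, f))) (fun y => decide_eq_true_iff)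
  rw [List.map_append, List.map_append, List.map_map, List.map_map, List.map_map, List.map_map,
    List.countP_append, List.countP_append] at key
  have e1 := countP_inl (J₁ := J₁) l (fun x => (x.1, minpoly K x.2)) j f
    (fun y => decide (y = (Sum.inl j, f))) (fun y => decide_eq_true_iff)
  have e2 := countP_inl (J₁ := J₁) l (fun x => (x.1, minpoly K ((w (Sum.inl x.1) : L') / x.2)))
    j f (fun y => decide (y = (Sum.inl j, f))) (fun y => decide_eq_true_iff)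
  have e3 := countP_inr (J₀ := J₀) l' (fun x => (x.1, minpoly K x.2)) j f
    (fun y => decide (y = (Sum.inl j, f))) (fun y => decide_eq_true_iff)
  have e4 := countP_inr (J₀ := J₀) l'
    (fun x => (x.1, minpoly K ((w (Sum.inr x.1) : L') / x.2)))
    j f (fun y => decide (y = (Sum.inl j, f))) (fun y => decide_eq_true_iff)
  rw [← e1, ← e2]
  exact (Nat.add_right_cancel (m := 0) (by
    rw [← e3]
    refine key.trans ?_
    rw [e3]
    exact congrArg (_ + ·) e4))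

/-- All relations between roots of the first family and roots of the second family are balanced
over `K`. -/
def RelBalanced (P : J₀ ⊕ J₁ → ℚ[X]) (e w : J₀ ⊕ J₁ → ℕ) (p : ℕ) (K L' : Type*) [Field K]
    [Field L'] [CharZero L'] [Algebra K L'] : Prop :=
  ∀ (l : List (J₀ × L')) (l' : List (J₁ × L')), (∀ x ∈ l, aeval x.2 (P (Sum.inl x.1)) = 0) →
    (∀ x ∈ l', aeval x.2 (P (Sum.inr x.1)) = 0) →
    (∃ N M : ℕ, 0 < N ∧ (∀ x ∈ l, e (Sum.inl x.1) ∣ N) ∧ (∀ x ∈ l', e (Sum.inr x.1) ∣ N) ∧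
      (l.map (fun x => x.2 ^ (N / e (Sum.inl x.1)))).prod *
        (l'.map (fun x => x.2 ^ (N / e (Sum.inr x.1)))).prod = (p : L') ^ M) →
    (l.map (fun x => (x.1, minpoly K x.2))).Perm
      (l.map (fun x => (x.1, minpoly K ((w (Sum.inl x.1) : L') / x.2))))

/-- **The density of the primes with balanced relations.** -/
theorem density_rel (hW : IsWeilFamily P w) (he : ∀ j, 0 < e j) (p : ℕ)
    (hp : 0 < p) (K : ℕ → Type) [∀ ℓ, Field (K ℓ)] [∀ ℓ, CharZero (K ℓ)]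
    (hK : ∀ (ℓ : ℕ) [Fact ℓ.Prime], ℓ ≠ p → Nonempty (K ℓ ≃+* ℚ_[ℓ])) (T : Set ℕ)
    (hT : ∀ (ℓ : ℕ) [Fact ℓ.Prime], ℓ ≠ p →
      RelBalanced P e w p (K ℓ) (AlgebraicClosure (K ℓ)) → ℓ ∈ T) :
    HasLowerDensity T ((1 / 2 : ℝ) ^ Module.finrank ℚ (relSpace Sum.inl P e)) := by
  obtain ⟨E, ⟨_, _⟩, hE, hspl⟩ := exists_E hW
  obtain ⟨c, hc⟩ := exists_conj E
  have := finite_rel hW (e := e) (Sum.inl : J₀ → J₀ ⊕ J₁)
  refine density_aux hW p hp E hspl (relSpace Sum.inl P e) (rel_stable hW hE Sum.inl) c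
    (rel_conj hE Sum.inl hc) K hK T ?_
  intro ℓ _ hℓ hτ
  obtain ⟨τ⟩ : Nonempty (E →+* AlgebraicClosure (K ℓ)) := by
    have : CharZero (AlgebraicClosure (K ℓ)) := inferInstance
    exact ⟨(IsAlgClosed.lift (R := ℚ) (S := E) (M := AlgebraicClosure (K ℓ)) : _ →ₐ[ℚ] _)⟩
  obtain ⟨σ, hσ, hmin⟩ := hτ τ
  refine hT ℓ hℓ (fun l l' hl hl' hrel => ?_)
  exact perm_rel' hW he hE τ (fun j => hmin (Sum.inl j)) hσ l l' hl hl' hrel

end Rel

/-- **The density of the primes with self-dual conjugacy classes.** -/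
theorem density_pairs (hW : IsWeilFamily P w) (p : ℕ)
    (hp : 0 < p) (K : ℕ → Type) [∀ ℓ, Field (K ℓ)] [∀ ℓ, CharZero (K ℓ)]
    (hK : ∀ (ℓ : ℕ) [Fact ℓ.Prime], ℓ ≠ p → Nonempty (K ℓ ≃+* ℚ_[ℓ])) (T : Set ℕ)
    (hT : ∀ (ℓ : ℕ) [Fact ℓ.Prime], ℓ ≠ p →
      (∀ j, ∀ x : AlgebraicClosure (K ℓ), aeval x (P j) = 0 →
        minpoly (K ℓ) x = minpoly (K ℓ) ((w j : AlgebraicClosure (K ℓ)) / x)) →
      ℓ ∈ T) :
    HasLowerDensity T ((1 / 2 : ℝ) ^ pairNumber P) := by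
  obtain ⟨E, ⟨_, _⟩, hE, hspl⟩ := exists_E hW
  obtain ⟨c, hc⟩ := exists_conj E
  have hfin := finrank_oddU hW
  have := hfin.1
  refine HasLowerDensity.mono (density_aux hW p hp E hspl (oddU P) (oddU_stable hW hE) c
    (fun f hf => oddU_conj hE hc hf) K hK T ?_)
    (pow_le_pow_of_le_one (by norm_num) (by norm_num) hfin.2)
  intro ℓ _ hℓ hτ
  obtain ⟨τ⟩ : Nonempty (E →+* AlgebraicClosure (K ℓ)) := by
    have : CharZero (AlgebraicClosure (K ℓ)) := inferInstance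
    exact ⟨(IsAlgClosed.lift (R := ℚ) (S := E) (M := AlgebraicClosure (K ℓ)) : _ →ₐ[ℚ] _)⟩
  obtain ⟨σ, hσ, hmin⟩ := hτ τ
  exact hT ℓ hℓ (fun j x hx => self_of_noInv hW hE τ hmin hσ j x hx)

end Pool.Agent.Helper11K9.Dens
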