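import Mathlib

/-!
# Lower density of a set of primes: definition
-/

set_option autoImplicit false

namespace Pool.Agent.Helper11K9.Dens

/-- The lower density of the set `S` of prime numbers (relative to all primes) is at least `δ`: for
every `ε > 0` and all large `N` the number of the primes `ℓ ≤ N` in `S` is at least `(δ - ε)` times
the number of all primes `≤ N`. -/
def HasLowerDensity (S : Set ℕ) (δ : ℝ) : Prop :=
  ∀ ε : ℝ, 0 < ε → ∃ N₀ : ℕ, ∀ N ≥ N₀,
    (δ - ε) * Nat.primeCounting N ≤ Nat.card {ℓ : ℕ // ℓ ≤ N ∧ ℓ.Prime ∧ ℓ ∈ S}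

end Pool.Agent.Helper11K9.Dens
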