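import Pool.Agent.R908.MainK

/-!
# The conjectures D and B and morphisms with injective pull-back
-/

set_option autoImplicit false

open CategoryTheory AlgebraicGeometry TensorProduct

universe u v w

namespace Pool.Agent.Helper11K9.Dens

open Pool.Agent.H914 Pool.Agent.H914.VarClass Pool.Agent.H914.VarClass.Obj
  Pool.Agent.H914.WeilCohomology Pool.Agent.H281R3.HT Pool.Agent.R908

variable {k : Type u} [Field k] {𝒱 : VarClass k} {ops : CycleOps 𝒱}
  {W : WeilCohomology.{u, v} ops} {X Y Z : 𝒱.Obj}

/-- The conjecture D descends along morphisms with injective pull-back. -/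
theorem image_inj (hX : HomEqNum W X) (g : X ⟶ Y) (hg : Function.Injective (W.map g)) :
    HomEqNum W Y := by
  intro j hj z hz hnum
  apply hg
  rw [map_zero, ← W.cl_pull]
  have hcyc := ops.pull_mem g hz
  by_cases hjp : j ≤ X.dim
  · apply hX j hjp _ hcyc
    intro y hy
    have h1 := ops.mul_mem hcyc hy
    rw [show j + (X.dim - j) = X.dim by omega] at h1
    have h2 : Y.IsCyc (Y.dim - j) (ops.push g y) := ops.push_mem g hy (by omega)
    have h3 := ops.mul_mem hz h2
    rw [show j + (Y.dim - j) = Y.dim by omega] at h3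
    have e1 : (X.V.degCycle (ops.mul (ops.pull g z) y) : W.K) =
        (Y.V.degCycle (ops.mul z (ops.push g y)) : W.K) := by
      rw [← W.tr_cl h1, ← W.tr_cl h3, W.cl_mul, W.cl_mul, W.cl_push,
        W.cl_pull, W.even_comm (W.cl_mem hz), W.tr_push,
        W.even_comm (W.map_mem g (W.cl_mem hz))]
    rw [hnum _ h2] at e1
    exact_mod_cast e1
  · have h1 := W.cl_mem hcyc
    rw [W.gr_eq_bot X _ (by omega)] at h1
    exact (Submodule.mem_bot _).1 h1

/-- The square of a morphism with injective pull-back. -/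
theorem exists_inj_prod (g : X ⟶ Y) (hg : Function.Injective (W.map g)) :
    ∃ G : X.prod X ⟶ Y.prod Y, Function.Injective (W.map G) := by
  set G : X.prod X ⟶ Y.prod Y := Obj.lift (fst X X ≫ g) (snd X X ≫ g) with hG
  have hG1 : ∀ u, W.map G (W.map (fst Y Y) u) = W.map (fst X X) (W.map g u) := by
    intro u
    rw [← W.map_comp, ← W.map_comp, hG, Obj.lift_fst]
  have hG2 : ∀ u, W.map G (W.map (snd Y Y) u) = W.map (snd X X) (W.map g u) := by
    intro u
    rw [← W.map_comp, ← W.map_comp, hG, Obj.lift_snd]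
  obtain ⟨ρ, hρ⟩ := LinearMap.exists_leftInverse_of_injective (W.map g).toLinearMap
    (LinearMap.ker_eq_bot.2 hg)
  have h1 : extHom W ρ ρ ∘ₗ (W.map G).toLinearMap = LinearMap.id := by
    apply ext_kunneth_lin
    intro a b
    have h2 : ∀ a, ρ (W.map g a) = a := fun a => congrArg (fun F => F a) hρ
    rw [LinearMap.comp_apply, AlgHom.toLinearMap_apply, map_mul, hG1, hG2, extHom_tmul, h2, h2]
    rfl
  refine ⟨G, fun a b hab => ?_⟩
  have h3 := congrArg (fun F => F a) h1
  have h4 := congrArg (fun F => F b) h1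
  beta_reduce at h3 h4
  rw [LinearMap.comp_apply, AlgHom.toLinearMap_apply] at h3 h4
  rw [hab, h4] at h3
  exact h3.symm

/-- **The conjectures D and B from the conjecture D for products.** -/
theorem standard_of_products {R : Set 𝒱.Obj} (key : ∀ Z, IsProductOf R Z → HomEqNum W Z)
    (Z : 𝒱.Obj) (hZ : IsProductOf R Z) (U : 𝒱.Obj) (g : Z ⟶ U)
    (hg : Function.Injective (W.map g)) : HomEqNum W U ∧
      ∀ D, U.IsCyc 1 D → HardLefschetz W U D → LefschetzB W U D := by
  refine ⟨image_inj (key Z hZ) g hg, fun D hD hHL => ?_⟩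
  obtain ⟨G, hG⟩ := exists_inj_prod g hg
  have h3 := image_inj (key (Z.prod Z) (IsProductOf.prod hZ hZ)) G hG
  apply Pool.Agent.H447.lefschetzB_of_homEqNumIn hD hHL
  intro z hz hnum
  by_cases hd : U.dim + 1 ≤ (U.prod U).dim
  · exact h3 (U.dim + 1) hd z hz hnum
  · have h4 := W.cl_mem hz
    rw [W.gr_eq_bot _ _ (by omega), Submodule.mem_bot] at h4
    exact h4

end Pool.Agent.Helper11K9.Dens
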