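import Mathlib

/-!
# Finite families of polynomials: definitions
-/

set_option autoImplicit false

namespace Pool.Agent.Helper11K9.Dens

open Polynomial

variable {J : Type} (n : J → ℕ)

/-- The polynomials `P j i` for `i ≤ n j`, as one finite family. -/
def famPoly (P : J → ℕ → ℚ[X]) (x : Σ j : J, Fin (n j + 1)) : ℚ[X] := P x.1 x.2

/-- The numbers `e j`, one for each of the polynomials `P j i`. -/
def famExp (e : J → ℕ) (x : Σ j : J, Fin (n j + 1)) : ℕ := e x.1

end Pool.Agent.Helper11K9.Dens
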