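import Mathlib

/-!
# Finite linear groups: the proportion of the elements without fixed vectors

If a finite group acts on a rational vector space of dimension `m`, and some element acts as `-1`,
then the proportion of the elements which have no nonzero fixed vector is at least `1 / 2 ^ m`.
Proof: the mean value of `det (1 - g)` is the mean value of `det (1 + g)`, the sum of the dimensions
of the invariants on the exterior powers, which is at least one.
-/

set_option autoImplicit false

namespace Pool.Agent.Helper11K9.Dens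

open Module Polynomial

section Trace

variable {K : Type*} [Field K] {V : Type*} [AddCommGroup V] [Module K V] [Module.Finite K V]

lemma det_sub_ofFin {n : ℕ} (M : Matrix (Fin n) (Fin n) K) {k : ℕ}
    (s : Set.powersetCard (Fin n) k) :
    (Matrix.of fun i j => M (Set.powersetCard.ofFinEmbEquiv.symm s j)
      (Set.powersetCard.ofFinEmbEquiv.symm s i)).det =
    (M.submatrix (Subtype.val : (s.1 : Finset (Fin n)) → Fin n)
      (Subtype.val : (s.1 : Finset (Fin n)) → Fin n)).det := by
  classical
  have hs : (s.1 : Finset (Fin n)).card = k := s.2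
  set e : Fin k ≃ (s.1 : Finset (Fin n)) := (Finset.orderIsoOfFin s.1 hs).toEquiv with he
  have h1 : (Matrix.of fun i j => M (Set.powersetCard.ofFinEmbEquiv.symm s j)
      (Set.powersetCard.ofFinEmbEquiv.symm s i)) =
      (((M.submatrix (Subtype.val : (s.1 : Finset (Fin n)) → Fin n)
      (Subtype.val : (s.1 : Finset (Fin n)) → Fin n)).submatrix e e).transpose) := by
    ext i j
    simp [Set.powersetCard.ofFinEmbEquiv_symm_apply, he]
  rw [h1, Matrix.det_transpose, Matrix.det_submatrix_equiv_self]

lemma trace_ext {n : ℕ} (b : Basis (Fin n) K V) (f : V →ₗ[K] V) (k : ℕ) :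
    LinearMap.trace K (⋀[K]^k V) (exteriorPower.map k f) =
      ∑ s ∈ Finset.univ.powersetCard k, ((LinearMap.toMatrix b b f).submatrix
        (Subtype.val : s → Fin n) (Subtype.val : s → Fin n)).det := by
  classical
  rw [LinearMap.trace_eq_matrix_trace K (b.exteriorPower k), Matrix.trace]
  have h1 : ∀ s : Set.powersetCard (Fin n) k,
      (LinearMap.toMatrix (b.exteriorPower k) (b.exteriorPower k)
        (exteriorPower.map k f)).diag s = ((LinearMap.toMatrix b b f).submatrix
        (Subtype.val : (s.1 : Finset (Fin n)) → Fin n)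
        (Subtype.val : (s.1 : Finset (Fin n)) → Fin n)).det := by
    intro s
    rw [Matrix.diag_apply, LinearMap.toMatrix_apply, exteriorPower.basis_repr_apply,
      exteriorPower.basis_apply, exteriorPower.ιMulti_family, exteriorPower.map_apply_ιMulti,
      exteriorPower.ιMultiDual_apply_ιMulti, ← det_sub_ofFin]
    congr 1
    ext i j
    simp [LinearMap.toMatrix_apply]
  rw [Finset.sum_congr rfl (fun s _ => h1 s)]
  symm
  refine Finset.sum_bij' (fun s hs => (⟨s, (Finset.mem_powersetCard.1 hs).2⟩ :
    Set.powersetCard (Fin n) k)) (fun s _ => s.1) ?_ ?_ ?_ ?_ ?_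
  · intro s _; exact Finset.mem_univ _
  · intro s _; exact Finset.mem_powersetCard.2 ⟨Finset.subset_univ _, s.2⟩
  · intro s _; rfl
  · intro s _; rfl
  · intro s _; rfl

lemma det_one_add (f : V →ₗ[K] V) :
    LinearMap.det (1 + f) = ∑ k ∈ Finset.range (finrank K V + 1),
      LinearMap.trace K (⋀[K]^k V) (exteriorPower.map k f) := by
  classical
  set n := finrank K V with hn
  let b : Basis (Fin n) K V := Module.finBasisOfFinrankEq K V rfl
  set M := LinearMap.toMatrix b b f with hM
  have h1 : LinearMap.det (1 + f) = (1 + M).det := by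
    rw [← LinearMap.det_toMatrix b, map_add, LinearMap.toMatrix_one]
  set P : K[X] := (1 + (X : K[X]) • M.map C).det with hP
  have h2 : (1 + M).det = P.eval 1 := by
    rw [hP, ← Polynomial.coe_evalRingHom, RingHom.map_det]
    congr 1
    ext i j
    by_cases h : i = j <;> simp [Matrix.one_apply, Matrix.map_apply, h]
  have hdeg : P.natDegree < n + 1 := by
    have h3 : P.natDegree ≤ n := by
      rw [Polynomial.natDegree_le_iff_coeff_eq_zero]
      intro N hN
      rw [hP, Matrix.coeff_det_one_add_X_smul_eq_sum_minors, Finset.powersetCard_eq_empty.2,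
        Finset.sum_empty]
      rwa [Finset.card_univ, Fintype.card_fin]
    omega
  rw [h1, h2, Polynomial.eval_eq_sum_range' hdeg]
  apply Finset.sum_congr rfl
  intro k _
  rw [one_pow, mul_one, hP, Matrix.coeff_det_one_add_X_smul_eq_sum_minors, trace_ext b f k]

end Trace

section Group

variable {G : Type*} [Group G] [Fintype G] {V : Type*} [AddCommGroup V] [Module ℚ V]
  [Module.Finite ℚ V]

/-- The action on the exterior power. -/
noncomputable def extRep (ρ : Representation ℚ G V) (k : ℕ) : Representation ℚ G (⋀[ℚ]^k V) where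
  toFun g := exteriorPower.map k (ρ g)
  map_one' := by
    rw [map_one, Module.End.one_eq_id, exteriorPower.map_id]
    rfl
  map_mul' g h := by
    rw [map_mul, Module.End.mul_eq_comp, exteriorPower.map_comp]
    rfl

lemma sum_trace {U : Type*} [AddCommGroup U] [Module ℚ U] [Module.Finite ℚ U]
    (ρ : Representation ℚ G U) :
    ∑ g, LinearMap.trace ℚ U (ρ g) = Fintype.card G * (finrank ℚ ρ.invariants : ℚ) := by
  have h0 : (Fintype.card G : ℚ) ≠ 0 := by
    exact_mod_cast Fintype.card_ne_zero
  have h1 := (ρ.isProj_averageMap).trace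
  have h2 : LinearMap.trace ℚ U ρ.averageMap =
      (Fintype.card G : ℚ)⁻¹ * ∑ g, LinearMap.trace ℚ U (ρ g) := by
    rw [Representation.averageMap, GroupAlgebra.average, map_smul, map_sum, map_smul, map_sum,
      smul_eq_mul, invOf_eq_inv]
    congr 1
    apply Finset.sum_congr rfl
    intro g _
    rw [ρ.asAlgebraHom_of g]
  rw [← h1, h2]
  field_simp

lemma trace_zero (ρ : Representation ℚ G V) (g : G) :
    LinearMap.trace ℚ (⋀[ℚ]^0 V) (extRep ρ 0 g) = 1 := by
  classical
  let b : Basis (Fin (finrank ℚ V)) ℚ V := Module.finBasisOfFinrankEq ℚ V rfl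
  change LinearMap.trace ℚ (⋀[ℚ]^0 V) (exteriorPower.map 0 (ρ g)) = 1
  rw [trace_ext b]
  simp

/-- The mean value of `det (1 + g)` is at least one. -/
lemma card_le_sum_det (ρ : Representation ℚ G V) :
    (Fintype.card G : ℚ) ≤ ∑ g, LinearMap.det (1 + ρ g) := by
  have h1 : ∑ g, LinearMap.det (1 + ρ g) = ∑ k ∈ Finset.range (finrank ℚ V + 1),
      ∑ g, LinearMap.trace ℚ (⋀[ℚ]^k V) (extRep ρ k g) := by
    rw [Finset.sum_comm]
    apply Finset.sum_congr rfl
    intro g _
    exact det_one_add (ρ g)
  rw [h1, Finset.sum_range_succ']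
  have h2 : ∑ g, LinearMap.trace ℚ (⋀[ℚ]^0 V) (extRep ρ 0 g) = Fintype.card G := by
    rw [Finset.sum_congr rfl (fun g _ => trace_zero ρ g), Finset.sum_const, Finset.card_univ,
      nsmul_eq_mul, mul_one]
  rw [h2, le_add_iff_nonneg_left]
  apply Finset.sum_nonneg
  intro k _
  rw [sum_trace]
  positivity

/-- The determinant of `1 - A` for an operator `A` of finite order. -/
lemma abs_det_le {U : Type*} [AddCommGroup U] [Module ℚ U] [Module.Finite ℚ U]
    (A : U →ₗ[ℚ] U) {N : ℕ} (hN : N ≠ 0) (hA : A ^ N = 1) :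
    |LinearMap.det (1 - A)| ≤ 2 ^ finrank ℚ U := by
  classical
  let b : Basis (Fin (finrank ℚ U)) ℚ U := Module.finBasisOfFinrankEq ℚ U rfl
  set M := LinearMap.toMatrix b b A with hM
  have hMN : M ^ N = 1 := by
    rw [hM, LinearMap.toMatrix_pow, hA, LinearMap.toMatrix_one]
  have h1 : LinearMap.det (1 - A) = (1 - M).det := by
    rw [← LinearMap.det_toMatrix b, map_sub, LinearMap.toMatrix_one]
  set C := M.map (algebraMap ℚ ℂ) with hC
  have hCN : C ^ N = 1 := by
    have h := congrArg (fun B => B.map (algebraMap ℚ ℂ)) hMN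
    beta_reduce at h
    rw [Matrix.map_pow] at h
    rw [hC, h]
    ext i j
    by_cases hij : i = j <;> simp [Matrix.one_apply, hij]
  have h2 : ((1 - M).det : ℂ) = C.charpoly.eval 1 := by
    rw [Matrix.eval_charpoly]
    have h3 := RingHom.map_det (algebraMap ℚ ℂ) (1 - M)
    rw [eq_ratCast] at h3
    rw [h3]
    congr 1
    ext i j
    by_cases hij : i = j <;> simp [hC, Matrix.one_apply, Matrix.scalar_apply, hij]
  have hsp : C.charpoly.Splits := IsAlgClosed.splits _
  have h4 : C.charpoly.eval 1 = (C.charpoly.roots.map (fun a => 1 - a)).prod := by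
    have h5 := hsp.eval_eq_prod_roots_of_monic (Matrix.charpoly_monic C) 1
    exact h5
  have h6 : ∀ a ∈ C.charpoly.roots, ‖(1 : ℂ) - a‖ ≤ 2 := by
    intro a ha
    have h7 : a ^ N = 1 := by
      rw [Polynomial.mem_roots (Matrix.charpoly_monic C).ne_zero, Polynomial.IsRoot.def,
        Matrix.eval_charpoly] at ha
      obtain ⟨v, hv, hv0⟩ := Matrix.exists_mulVec_eq_zero_iff.2 ha
      have h8 : C.mulVec v = a • v := by
        rw [Matrix.sub_mulVec, sub_eq_zero] at hv0
        rw [← hv0]
        ext i
        simp [Matrix.scalar_apply, Matrix.mulVec_diagonal]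
      have h9 : ∀ n : ℕ, (C ^ n).mulVec v = a ^ n • v := by
        intro n
        induction n with
        | zero => simp
        | succ n ih =>
          rw [pow_succ', ← Matrix.mulVec_mulVec, ih, Matrix.mulVec_smul, h8, smul_smul, pow_succ]
      have h10 := h9 N
      rw [hCN, Matrix.one_mulVec] at h10
      obtain ⟨i, hi⟩ : ∃ i, v i ≠ 0 := by
        by_contra hcon
        push Not at hcon
        exact hv (funext hcon)
      have h11 := congrFun h10 i
      rw [Pi.smul_apply, smul_eq_mul] at h11
      exact (mul_right_cancel₀ hi ((one_mul _).trans h11)).symm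
    have h12 : ‖a‖ = 1 := Complex.norm_eq_one_of_pow_eq_one h7 hN
    calc ‖(1 : ℂ) - a‖ ≤ ‖(1 : ℂ)‖ + ‖a‖ := norm_sub_le _ _
      _ = 2 := by rw [h12, norm_one]; norm_num
  have h13 : ∀ s : Multiset ℂ, (∀ a ∈ s, ‖(1 : ℂ) - a‖ ≤ 2) →
      ‖(s.map (fun a => 1 - a)).prod‖ ≤ 2 ^ Multiset.card s := by
    intro s
    induction s using Multiset.induction with
    | empty => intro _; simp
    | cons a s ih =>
      intro h
      rw [Multiset.map_cons, Multiset.prod_cons, norm_mul, Multiset.card_cons, pow_succ']
      exact mul_le_mul (h a (Multiset.mem_cons_self _ _))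
        (ih (fun b hb => h b (Multiset.mem_cons_of_mem hb))) (norm_nonneg _) (by norm_num)
  have h14 : Multiset.card C.charpoly.roots = finrank ℚ U := by
    rw [← hsp.natDegree_eq_card_roots, Matrix.charpoly_natDegree_eq_dim, Fintype.card_fin]
  have h15 : ‖((1 - M).det : ℂ)‖ ≤ 2 ^ finrank ℚ U := by
    have h17 := h13 _ h6
    rw [h14] at h17
    rw [h2, h4]
    exact h17
  rw [h1]
  have h16 : ‖((1 - M).det : ℂ)‖ = ((|(1 - M).det| : ℚ) : ℝ) := by
    rw [← Complex.ofReal_ratCast, Complex.norm_real, Real.norm_eq_abs, Rat.cast_abs]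
  rw [h16] at h15
  exact_mod_cast h15

/-- The determinant of `1 - A` is zero if and only if `A` has a fixed vector. -/
lemma det_ne_zero {U : Type*} [AddCommGroup U] [Module ℚ U] [Module.Finite ℚ U]
    (A : U →ₗ[ℚ] U) (h : LinearMap.det (1 - A) ≠ 0) (v : U) (hv : A v = v) : v = 0 := by
  have h2 : Function.Injective (LinearMap.equivOfDetNeZero (1 - A) h) :=
    (LinearMap.equivOfDetNeZero (1 - A) h).injective
  apply h2
  rw [map_zero]
  change (1 - A) v = 0
  rw [LinearMap.sub_apply, Module.End.one_apply, hv, sub_self]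

/-- **The proportion of the elements without nonzero fixed vectors** is at least `1 / 2 ^ m`, if some
element acts as `-1` on the space of dimension `m`. -/
theorem card_noFixed (ρ : Representation ℚ G V) (c : G) (hc : ρ c = -1) :
    Nat.card G ≤ 2 ^ finrank ℚ V * Nat.card {g : G // ∀ v, ρ g v = v → v = 0} := by
  classical
  have h1 := card_le_sum_det ρ
  have h2 : ∑ g, LinearMap.det (1 + ρ g) = ∑ g, LinearMap.det (1 - ρ g) := by
    rw [← Equiv.sum_comp (Equiv.mulLeft c)]
    apply Finset.sum_congr rfl
    intro g _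
    rw [Equiv.coe_mulLeft, map_mul, hc, neg_one_mul, ← sub_eq_add_neg]
  rw [h2] at h1
  have h3 : ∀ g, LinearMap.det (1 - ρ g) ≤
      if (∀ v, ρ g v = v → v = 0) then (2 : ℚ) ^ finrank ℚ V else 0 := by
    intro g
    split_ifs with h
    · refine (le_abs_self _).trans (abs_det_le (ρ g) (N := Fintype.card G) Fintype.card_ne_zero ?_)
      rw [← map_pow, pow_card_eq_one, map_one]
    · apply le_of_eq
      by_contra hne
      exact h (det_ne_zero (ρ g) hne)
  have h4 := h1.trans (Finset.sum_le_sum (fun g _ => h3 g))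
  rw [← Finset.sum_filter, Finset.sum_const, nsmul_eq_mul] at h4
  rw [Nat.card_eq_fintype_card, Nat.card_eq_fintype_card, Fintype.card_subtype, mul_comm]
  exact_mod_cast h4

end Group

end Pool.Agent.Helper11K9.Dens
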