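import Mathlib

/-!
# Reduction of algebraic numbers over an `ℓ`-adic field
-/

set_option autoImplicit false

namespace Pool.Agent.Helper11K9.Dens

open Polynomial

variable {ℓ : ℕ} [Fact ℓ.Prime] {L' : Type} [Field L'] [Algebra ℤ_[ℓ] L']


/-- A residue homomorphism. -/
lemma exists_res (h1 : Function.Injective (algebraMap ℤ_[ℓ] L')) :
    ∃ ψ : (integralClosure ℤ_[ℓ] L') →+* AlgebraicClosure (ZMod ℓ),
    ∀ x : ℤ_[ℓ], ψ (algebraMap _ _ x) = algebraMap (ZMod ℓ) _ (PadicInt.toZMod x) := by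
  have hinj : Function.Injective (algebraMap ℤ_[ℓ] (integralClosure ℤ_[ℓ] L')) := by
    intro x y hxy
    apply h1
    exact congrArg Subtype.val hxy
  obtain ⟨Q, hQ, hcomap⟩ := Ideal.exists_ideal_over_maximal_of_isIntegral (S := (integralClosure ℤ_[ℓ] L'))
    (IsLocalRing.maximalIdeal ℤ_[ℓ]) (by
      rw [(RingHom.injective_iff_ker_eq_bot _).1 hinj]
      exact bot_le)
  let κ := (integralClosure ℤ_[ℓ] L') ⧸ Q
  let _ : Field κ := Ideal.Quotient.field Q
  set c : (integralClosure ℤ_[ℓ] L') →+* κ := Ideal.Quotient.mk Q with hc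
  have hker : ∀ x : ℤ_[ℓ], c (algebraMap _ _ x) = 0 ↔ PadicInt.toZMod x = 0 := by
    intro x
    rw [hc, Ideal.Quotient.eq_zero_iff_mem, ← Ideal.mem_comap, hcomap, ← PadicInt.ker_toZMod,
      RingHom.mem_ker]
  have hchar : ((ℓ : ℕ) : κ) = 0 := by
    have h1 := (hker ((ℓ : ℕ) : ℤ_[ℓ])).2 (by rw [map_natCast, ZMod.natCast_self])
    rwa [map_natCast, map_natCast] at h1
  have : CharP κ ℓ := by
    refine (CharP.charP_iff_prime_eq_zero Fact.out).2 hchar
  let _ : Algebra (ZMod ℓ) κ := (ZMod.castHom (dvd_refl ℓ) κ).toAlgebra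
  have hcomp : ∀ x : ℤ_[ℓ], c (algebraMap _ _ x) = algebraMap (ZMod ℓ) κ (PadicInt.toZMod x) := by
    intro x
    obtain ⟨n, hn⟩ := ZMod.natCast_zmod_surjective (PadicInt.toZMod x)
    have h1 : c (algebraMap _ _ (x - (n : ℤ_[ℓ]))) = 0 := by
      rw [hker, map_sub, map_natCast, hn, sub_self]
    rw [map_sub, map_sub, sub_eq_zero, map_natCast, map_natCast] at h1
    rw [h1, ← hn, map_natCast]
  have halg : Algebra.IsAlgebraic (ZMod ℓ) κ := by
    refine ⟨fun x => ?_⟩
    obtain ⟨b, rfl⟩ := Ideal.Quotient.mk_surjective x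
    obtain ⟨f, hf, hfb⟩ : IsIntegral ℤ_[ℓ] b := Algebra.IsIntegral.isIntegral b
    refine ⟨f.map PadicInt.toZMod, (hf.map _).ne_zero, ?_⟩
    have h1 : c (eval₂ (algebraMap ℤ_[ℓ] (integralClosure ℤ_[ℓ] L')) b f) = 0 := by rw [hfb, map_zero]
    rw [Polynomial.hom_eval₂] at h1
    rw [Polynomial.aeval_def, Polynomial.eval₂_map, ← h1]
    congr 1
    ext x
    exact (hcomp x).symm
  let ι : κ →ₐ[ZMod ℓ] AlgebraicClosure (ZMod ℓ) := IsAlgClosed.lift
  refine ⟨(ι : κ →+* AlgebraicClosure (ZMod ℓ)).comp c, fun x => ?_⟩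
  rw [RingHom.comp_apply, hcomp]
  exact ι.commutes _

lemma exists_conj_root [IsAlgClosed L'] {ψ : (integralClosure ℤ_[ℓ] L') →+* AlgebraicClosure (ZMod ℓ)}
    (hψ : ∀ x : ℤ_[ℓ], ψ (algebraMap _ _ x) = algebraMap (ZMod ℓ) _ (PadicInt.toZMod x))
    (y : (integralClosure ℤ_[ℓ] L')) {g : ℤ_[ℓ][X]} (hg : g.Monic) (hgy : aeval (y : L') g = 0) :
    ∃ a : (integralClosure ℤ_[ℓ] L'), aeval (a : L') g = 0 ∧ ψ a = ψ y ^ ℓ := by
  classical
  have hBL : ∀ z : (integralClosure ℤ_[ℓ] L'), ((algebraMap (integralClosure ℤ_[ℓ] L') L') z) = (z : L') := fun z => rfl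
  -- the roots
  have hroots : ∀ s : Multiset L', (∀ a ∈ s, IsIntegral ℤ_[ℓ] a) →
      ∃ t : Multiset (integralClosure ℤ_[ℓ] L'), t.map (fun z : (integralClosure ℤ_[ℓ] L') => (z : L')) = s := by
    intro s
    induction s using Multiset.induction with
    | empty => intro _; exact ⟨0, rfl⟩
    | cons a s ih =>
      intro h
      obtain ⟨t, ht⟩ := ih (fun b hb => h b (Multiset.mem_cons_of_mem hb))
      exact ⟨(⟨a, h a (Multiset.mem_cons_self _ _)⟩ : (integralClosure ℤ_[ℓ] L')) ::ₘ t, by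
        rw [Multiset.map_cons, ht]⟩
  have hgm : (g.map (algebraMap ℤ_[ℓ] L')).Monic := hg.map _
  obtain ⟨t, ht⟩ := hroots (g.map (algebraMap ℤ_[ℓ] L')).roots (by
    intro a ha
    rw [mem_roots hgm.ne_zero, IsRoot.def, eval_map_algebraMap] at ha
    exact ⟨g, hg, ha⟩)
  have hsplit : (g.map (algebraMap ℤ_[ℓ] L')).Splits := IsAlgClosed.splits _
  have hev : ∀ z : (integralClosure ℤ_[ℓ] L'), aeval z g = (t.map (fun a => z - a)).prod := by
    intro z
    apply Subtype.val_injective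
    have h1 : ((aeval z g : (integralClosure ℤ_[ℓ] L')) : L') = aeval (z : L') g := by
      rw [← hBL, ← aeval_algebraMap_apply, hBL]
    have h2 : (((t.map (fun a => z - a)).prod : (integralClosure ℤ_[ℓ] L')) : L') =
        (t.map (fun a : (integralClosure ℤ_[ℓ] L') => (z : L') - (a : L'))).prod := by
      rw [← hBL, map_multiset_prod, Multiset.map_map]
      rfl
    change ((aeval z g : (integralClosure ℤ_[ℓ] L')) : L') = (((t.map (fun a => z - a)).prod : (integralClosure ℤ_[ℓ] L')) : L')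
    rw [h1, h2, ← eval_map_algebraMap, hsplit.eval_eq_prod_roots_of_monic hgm, ← ht,
      Multiset.map_map]
    rfl
  have hpsi : ∀ z : (integralClosure ℤ_[ℓ] L'), ψ (aeval z g) = aeval (ψ z) (g.map PadicInt.toZMod) := by
    intro z
    rw [aeval_def, aeval_def, hom_eval₂, eval₂_map]
    congr 1
    ext x
    exact hψ x
  have h3 : ψ (aeval (y ^ ℓ) g) = 0 := by
    have h4 : aeval (ψ y) (g.map (PadicInt.toZMod (p := ℓ))) = 0 := by
      rw [← hpsi]
      have h5 : aeval y g = 0 := by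
        apply Subtype.val_injective
        change ((aeval y g : (integralClosure ℤ_[ℓ] L')) : L') = 0
        rw [← hBL, ← aeval_algebraMap_apply, hBL, hgy]
      rw [h5, map_zero]
    rw [hpsi, map_pow, ← expand_aeval, ZMod.expand_card, map_pow, h4,
      zero_pow (Fact.out : ℓ.Prime).ne_zero]
  rw [hev, map_multiset_prod, Multiset.map_map, Multiset.prod_eq_zero_iff, Multiset.mem_map] at h3
  obtain ⟨a, ha, ha0⟩ := h3
  refine ⟨a, ?_, ?_⟩
  · have h4 : (a : L') ∈ (g.map (algebraMap ℤ_[ℓ] L')).roots := by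
      rw [← ht]
      exact Multiset.mem_map_of_mem _ ha
    rw [mem_roots hgm.ne_zero, IsRoot.def, eval_map_algebraMap] at h4
    exact h4
  · rw [Function.comp_apply, map_sub, map_pow, sub_eq_zero] at ha0
    exact ha0.symm

end Pool.Agent.Helper11K9.Dens
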