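import Pool.Agent.Helper11K9.Dens.Loc
import Pool.Agent.W401.Cheb.Main

/-!
# Frobenius elements and conjugacy over an `ℓ`-adic field
-/

set_option autoImplicit false

namespace Pool.Agent.Helper11K9.Dens

open Polynomial NumberField Pool.Agent.W401.Cheb

section Bad

variable (E : Type) [Field E] [NumberField E]

variable {E} in
/-- An integral element as an element of the ring of integers. -/
def mkO (z : E) (h : IsIntegral ℤ z) : 𝓞 E := ⟨z, h⟩

/-- For all but finitely many `ℓ` the roots of `Q` are integral at `ℓ` and distinct modulo `ℓ`. -/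
lemma exists_bad (Q : ℚ[X]) (hQ : Q ≠ 0) : ∃ (b : ℕ) (D : ℕ), 0 < b ∧ 0 < D ∧
    (∀ z : E, aeval z Q = 0 → IsIntegral ℤ ((b : E) * z)) ∧
    ∀ (ℓ : ℕ) [Fact ℓ.Prime], ¬ ℓ ∣ D → ∀ (κ : Type) [Field κ] [CharP κ ℓ] (φ : 𝓞 E →+* κ)
      (x y : 𝓞 E) (z w : E), aeval z Q = 0 → aeval w Q = 0 → (x : E) = b * z → (y : E) = b * w →
        φ x = φ y → z = w := by
  classical
  set R := (Q.rootSet_finite E).toFinset with hR
  have hmem : ∀ z : E, z ∈ R ↔ aeval z Q = 0 := by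
    intro z
    rw [hR, Set.Finite.mem_toFinset, mem_rootSet]
    exact ⟨fun h => h.2, fun h => ⟨hQ, h⟩⟩
  have h1 : ∀ z : E, ∃ c : ℤ, c ≠ 0 ∧ IsIntegral ℤ (c • z) := by
    intro z
    have h0 : IsAlgebraic ℤ z :=
      (IsFractionRing.isAlgebraic_iff ℤ ℚ E).2 (Algebra.IsAlgebraic.isAlgebraic z)
    obtain ⟨c, hc, h⟩ := h0.exists_integral_multiple
    exact ⟨c, hc, h⟩
  choose c hc hci using h1
  set b : ℕ := ∏ z ∈ R, (c z).natAbs with hb
  have hbpos : 0 < b := Finset.prod_pos (fun z _ => Int.natAbs_pos.2 (hc z))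
  have hint : ∀ z : E, aeval z Q = 0 → IsIntegral ℤ ((b : E) * z) := by
    intro z hz
    obtain ⟨d, hd⟩ : (c z) ∣ (b : ℤ) := by
      rw [← Int.natAbs_dvd, Int.natCast_dvd_natCast]
      exact Finset.dvd_prod_of_mem _ ((hmem z).2 hz)
    have h2 : (b : E) * z = (d : E) * (c z • z) := by
      have h3 : ((b : ℕ) : E) = ((b : ℤ) : E) := by norm_cast
      rw [h3, hd, zsmul_eq_mul, Int.cast_mul]
      ring
    rw [h2]
    exact (isIntegral_algebraMap (R := ℤ) (A := E) (x := d)).mul (hci z)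
  -- the differences
  set dd : E × E → ℕ := fun t => if h : IsIntegral ℤ ((b : E) * t.1) ∧ IsIntegral ℤ ((b : E) * t.2)
    then Ideal.absNorm (Ideal.span {mkO _ h.1 - mkO _ h.2}) else 1 with hdd
  set D : ℕ := ∏ t ∈ (R ×ˢ R).filter (fun t => t.1 ≠ t.2), dd t with hD
  have hb0 : (b : E) ≠ 0 := by exact_mod_cast hbpos.ne'
  refine ⟨b, D, hbpos, ?_, hint, ?_⟩
  · apply Finset.prod_pos
    intro t ht
    rw [hdd]
    beta_reduce
    split_ifs with h
    · rw [Nat.pos_iff_ne_zero, Ne, Ideal.absNorm_eq_zero_iff, Ideal.span_singleton_eq_bot, sub_eq_zero]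
      intro h2
      have h3 := congrArg (fun x : 𝓞 E => (x : E)) h2
      rw [Finset.mem_filter] at ht
      exact ht.2 (mul_left_cancel₀ hb0 h3)
    · exact one_pos
  · intro ℓ _ hℓ κ _ _ φ x y z w hz hw hx hy hφ
    by_contra hne
    apply hℓ
    have ht : (z, w) ∈ (R ×ˢ R).filter (fun t => t.1 ≠ t.2) := by
      rw [Finset.mem_filter, Finset.mem_product]
      exact ⟨⟨(hmem z).2 hz, (hmem w).2 hw⟩, hne⟩
    refine dvd_trans ?_ (Finset.dvd_prod_of_mem dd ht)
    have hi : IsIntegral ℤ ((b : E) * (z, w).1) ∧ IsIntegral ℤ ((b : E) * (z, w).2) :=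
      ⟨hint z hz, hint w hw⟩
    rw [hdd]
    beta_reduce
    rw [dif_pos hi]
    have e1 : mkO _ hi.1 = x := RingOfIntegers.ext hx.symm
    have e2 : mkO _ hi.2 = y := RingOfIntegers.ext hy.symm
    rw [e1, e2]
    obtain ⟨c, hc⟩ := Ideal.mem_span_singleton.1 (Ideal.absNorm_mem (Ideal.span {x - y}))
    have h4 := congrArg φ hc
    rw [map_mul, map_sub, hφ, sub_self, zero_mul, map_natCast] at h4
    exact (CharP.cast_eq_zero_iff κ ℓ _).1 h4

end Bad

section Main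

variable (E : Type) [Field E] [NumberField E] [IsGalois ℚ E]

/-- **Frobenius elements preserve the conjugacy classes over `ℚ_ℓ`** of the roots of `Q`, for all but
finitely many `ℓ`. -/
theorem frob_minpoly (Q : ℚ[X]) (hQ : Q ≠ 0) (hspl : (Q.map (algebraMap ℚ E)).Splits) :
    ∃ D : ℕ, 0 < D ∧ ∀ (ℓ : ℕ) [Fact ℓ.Prime], ¬ ℓ ∣ D → ∀ (K : Type) [Field K]
      (_ : K ≃+* ℚ_[ℓ]) (L' : Type) [Field L'] [IsAlgClosed L'] [Algebra K L'] [Normal K L']
      (τ : E →+* L'), ∃ φ : 𝓞 E →+* AlgebraicClosure (ZMod ℓ), ∀ σ : Gal(E/ℚ), HasFrob ℓ φ σ →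
        ∀ z : E, aeval z Q = 0 → minpoly K (τ (σ z)) = minpoly K (τ z) := by
  obtain ⟨b, D, hb, hD, hint, hinj⟩ := exists_bad E Q hQ
  refine ⟨D, hD, ?_⟩
  intro ℓ _ hℓ K _ e L' _ _ _ _ τ
  let _ : Algebra ℤ_[ℓ] K := ((e.symm : ℚ_[ℓ] →+* K).comp (algebraMap ℤ_[ℓ] ℚ_[ℓ])).toAlgebra
  have hfr : IsFractionRing ℤ_[ℓ] K := by
    let f : ℚ_[ℓ] ≃ₐ[ℤ_[ℓ]] K := AlgEquiv.ofRingEquiv (f := e.symm) (fun x => rfl)
    exact IsLocalization.isLocalization_of_algEquiv _ f
  let _ : Algebra ℤ_[ℓ] L' := ((algebraMap K L').comp (algebraMap ℤ_[ℓ] K)).toAlgebra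
  have hst : IsScalarTower ℤ_[ℓ] K L' := IsScalarTower.of_algebraMap_eq' rfl
  have hinj0 : Function.Injective (algebraMap ℤ_[ℓ] L') := by
    rw [IsScalarTower.algebraMap_eq ℤ_[ℓ] K L']
    exact (algebraMap K L').injective.comp (IsFractionRing.injective ℤ_[ℓ] K)
  have : CharZero K := by
    have h1 : Function.Injective (algebraMap ℤ_[ℓ] K) := IsFractionRing.injective ℤ_[ℓ] K
    exact charZero_of_injective_algebraMap h1
  have : CharZero L' := charZero_of_injective_algebraMap hinj0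
  obtain ⟨ψ, hψ⟩ := exists_res hinj0
  have hcod : ∀ x : 𝓞 E, (τ.comp (algebraMap (𝓞 E) E)) x ∈ integralClosure ℤ_[ℓ] L' := by
    intro x
    have h1 : IsIntegral ℤ (x : E) := x.2
    have h2 : IsIntegral ℤ (τ (x : E)) := h1.map (τ.toIntAlgHom)
    exact h2.tower_top
  set j : 𝓞 E →+* integralClosure ℤ_[ℓ] L' :=
    (τ.comp (algebraMap (𝓞 E) E)).codRestrict (integralClosure ℤ_[ℓ] L') hcod with hj
  have hjv : ∀ x : 𝓞 E, ((j x : integralClosure ℤ_[ℓ] L') : L') = τ (x : E) := fun x => rfl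
  refine ⟨ψ.comp j, fun σ hσ z hz => ?_⟩
  set x : 𝓞 E := ⟨(b : E) * z, hint z hz⟩ with hx
  have hyint : IsIntegral ℤ_[ℓ] ((j x : integralClosure ℤ_[ℓ] L') : L') := (j x).2
  obtain ⟨a, ha, hψa⟩ := exists_conj_root hψ (j x) (minpoly.monic hyint)
    (minpoly.aeval ℤ_[ℓ] ((j x : integralClosure ℤ_[ℓ] L') : L'))
  have h1 : minpoly K ((j x : integralClosure ℤ_[ℓ] L') : L') =
      (minpoly ℤ_[ℓ] ((j x : integralClosure ℤ_[ℓ] L') : L')).map (algebraMap ℤ_[ℓ] K) :=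
    minpoly.isIntegrallyClosed_eq_field_fractions' K hyint
  have h2 : aeval (a : L') (minpoly K ((j x : integralClosure ℤ_[ℓ] L') : L')) = 0 := by
    rw [h1, aeval_map_algebraMap]
    exact ha
  have h3 : IsConjRoot K (a : L') ((j x : integralClosure ℤ_[ℓ] L') : L') := by
    have h4 : minpoly K (a : L') = minpoly K ((j x : integralClosure ℤ_[ℓ] L') : L') := by
      refine (minpoly.eq_of_irreducible_of_monic ?_ h2 ?_).symm
      · exact minpoly.irreducible hyint.tower_top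
      · exact minpoly.monic hyint.tower_top
    exact h4
  obtain ⟨g, hg⟩ := h3.exists_algEquiv
  have hbL : (b : L') ≠ 0 := by exact_mod_cast hb.ne'
  have h5 : g (τ z) * b = (a : L') := by
    rw [← hg, hjv]
    change _ = g (τ ((b : E) * z))
    rw [map_mul, map_mul, map_natCast, map_natCast, mul_comm]
  have h6 : aeval (g (τ z)) Q = 0 := by
    have h7 := congrArg (((g : L' ≃+* L') : L' →+* L').comp τ) hz
    rw [map_zero, aeval_def, hom_eval₂] at h7
    rw [aeval_def, ← h7]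
    congr 1
    exact Subsingleton.elim _ _
  obtain ⟨w, hw, hwz⟩ : ∃ w : E, aeval w Q = 0 ∧ τ w = g (τ z) := by
    have h8 := hspl.image_rootSet (RingHom.toRatAlgHom τ)
    have h9 : g (τ z) ∈ Q.rootSet L' := by
      rw [mem_rootSet]
      exact ⟨hQ, h6⟩
    rw [← h8] at h9
    obtain ⟨w, hw, hw'⟩ := h9
    exact ⟨w, (mem_rootSet.1 hw).2, hw'⟩
  set y : 𝓞 E := ⟨(b : E) * w, hint w hw⟩ with hy
  have h10 : j y = a := by
    apply Subtype.val_injective
    change τ ((b : E) * w) = (a : L')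
    rw [map_mul, map_natCast, hwz, mul_comm, h5]
  have hroot : aeval (σ z) Q = 0 := by
    have h12 := aeval_algHom_apply (σ : E →ₐ[ℚ] E) z Q
    rw [hz, map_zero] at h12
    exact h12
  have h11 : σ z = w := by
    have : CharP (AlgebraicClosure (ZMod ℓ)) ℓ := inferInstance
    refine hinj ℓ hℓ (AlgebraicClosure (ZMod ℓ)) (ψ.comp j) (σ • x) y (σ z) w hroot hw ?_ rfl ?_
    · change σ ((b : E) * z) = _
      rw [map_mul, map_natCast]
    · rw [hσ x, RingHom.comp_apply, RingHom.comp_apply, h10, hψa]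
  rw [h11, hwz]
  exact minpoly.algEquiv_eq g (τ z)

end Main

end Pool.Agent.Helper11K9.Dens
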