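import Pool.Agent.Helper11K9.Dens.MotB

/-!
# The conjecture D for products, if the relations are balanced
-/

set_option autoImplicit false

open CategoryTheory AlgebraicGeometry TensorProduct Polynomial

universe u v w

namespace Pool.Agent.Helper11K9.Dens

open Pool.Agent.H914 Pool.Agent.H914.VarClass Pool.Agent.H914.VarClass.Obj
  Pool.Agent.H914.WeilCohomology Pool.Agent.H281R3.HT Pool.Agent.W534 Pool.Agent.R908

variable {k : Type u} [Field k] {𝒱 : VarClass k} {ops : CycleOps 𝒱}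
  {W : WeilCohomology.{u, v} ops} {p : ℕ} {Φ : FrobSystem W p}
  {J : Type} {V : J → 𝒱.Obj} {P : J → ℕ → ℚ[X]} {𝒴 : Set 𝒱.Obj}

/-- The index set of the pieces. -/
abbrev Ix (V : J → 𝒱.Obj) : Type := Σ j : J, Fin ((V j).dim + 1)

/-- The relations are balanced. -/
def BalancedFor (Φ : FrobSystem W p) (V : J → 𝒱.Obj) (P : J → ℕ → ℚ[X]) (𝒴 : Set 𝒱.Obj) :
    Prop :=
  ∀ (l : List (Ix V × AlgebraicClosure W.K)) (l' : List (𝒱.Obj × AlgebraicClosure W.K)),
    (∀ x ∈ l, aeval x.2 (P x.1.1 x.1.2) = 0) →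
    (∀ y ∈ l', y.1 ∈ 𝒴 ∧ aeval y.2 (minpoly W.K (fr Φ y.1)) = 0) →
    FrobRel p (l.map (fun x => (x.2, Φ.e (V x.1.1))) ++ l'.map (fun y => (y.2, Φ.e y.1))) →
      (l.map (fun x => (x.1, minpoly W.K x.2))).Perm
        (l.map (fun x => (x.1, minpoly W.K
          ((((p : AlgebraicClosure W.K) ^ Φ.e (V x.1.1)) ^ (x.1.2 : ℕ)) / x.2))))

theorem homEqNum_of_balanced (hV : ∀ j, ∃ F, PieceFam Φ (AlgebraicClosure W.K) (V j) (P j) F)
    (h𝒴 : ∀ Y, IsProductOf 𝒴 Y → HomEqNum W Y)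
    (hbal : BalancedFor Φ V P 𝒴) {Z : 𝒱.Obj}
    (hZ : IsProductOf (Set.range V ∪ 𝒴) Z) : HomEqNum W Z := by
  choose F hF using hV
  let L := AlgebraicClosure W.K
  obtain ⟨E, hE⟩ : ∃ E : Ix V → PieceData Φ, E = fun x => F x.1 x.2 := ⟨_, rfl⟩
  have hEx : ∀ x, E x = F x.1 x.2 := fun x => by rw [hE]
  have hR : ∀ x : Ix V, ∃ R : Finset L, IsRoots (E x).P R := fun x => exists_roots (E x).h.sqf
  choose R hR using hR
  have hchar : ∀ a : ℚ, algebraMap W.K L (algebraMap ℚ W.K a) = algebraMap ℚ L a :=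
    fun a => by rw [eq_ratCast, eq_ratCast, map_ratCast]
  have hbal' : Balanced E L 𝒴 := by
    intro l l' hl hl' hrel
    have h1 : ∀ x : Ix V × L, aeval x.2 (E x.1).P = aeval x.2 (P x.1.1 x.1.2) := by
      intro x
      rw [hEx, (hF x.1.1).2.1, aeval_map_algebraMap]
    have h2 : ∀ x : Ix V, Φ.e (E x).V = Φ.e (V x.1) := by
      intro x
      rw [hEx, (hF x.1).1]
    have h3 : ∀ x : Ix V, algebraMap W.K L (E x).c = ((p : L) ^ Φ.e (V x.1)) ^ (x.2 : ℕ) := by
      intro x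
      rw [hEx, (hF x.1).2.2.1, map_pow, map_pow, map_natCast]
    have h4 := hbal l l' (fun x hx => by rw [← h1]; exact hl x hx) hl' (by
      have h5 : l.map (fun x => (x.2, Φ.e (V x.1.1))) = l.map (fun x => (x.2, Φ.e (E x.1).V)) := by
        apply List.map_congr_left
        intro x _
        rw [h2]
      rw [h5]
      exact hrel)
    have h6 : l.map (fun x => (x.1, minpoly W.K (algebraMap W.K L (E x.1).c / x.2))) =
        l.map (fun x => (x.1, minpoly W.K
          ((((p : L) ^ Φ.e (V x.1.1)) ^ (x.1.2 : ℕ)) / x.2))) := by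
      apply List.map_congr_left
      intro x _
      rw [h3]
    rw [h6]
    exact h4
  apply homEqNum_base (L := L)
  have hid : (LinearMap.id : (baseW W L).H Z →ₗ[(baseW W L).K] (baseW W L).H Z) ∈
      RetOp (baseW W L) (WCls E hR 𝒴) Z Z := by
    induction hZ with
    | base hX =>
      rcases hX with ⟨j, rfl⟩ | hX
      · refine (hF j).2.2.2 _ (fun A B => WCls.tensor A B) (fun B hB => WCls.alg hB) ?_
        intro i R' hR' b hb
        have h1 : R (⟨j, i⟩ : Ix V) = R' := by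
          ext a
          rw [(hR ⟨j, i⟩).1, hR'.1, hEx]
        subst h1
        have h2 := WCls.letter (D := E) (hR := hR) (𝒴 := 𝒴) (i := ⟨j, i⟩) hb
        subst hE
        exact h2
      · exact id_mem_other hX
    | prod _ _ ih1 ih2 =>
      have h1 := RetOp.ext (P := WCls E hR 𝒴) (fun A B => WCls.tensor A B) ih1 ih2
      rw [extHom_id] at h1
      exact h1
  exact RetOp.homEqNum (P := WCls E hR 𝒴)
    (fun B hB => WCls.num hbal' (fun Y hY => homEqNum_up (h𝒴 Y hY)) B hB) hid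

end Pool.Agent.Helper11K9.Dens
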