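import Pool.Agent.Helper11K9.Dens.MainDefs
import Pool.Agent.Helper11K9.Dens.AdicDefs
import Pool.Agent.Helper11K9.Dens.FamDefs
import Pool.Agent.Helper11K9.Dens.MotC
import Pool.Agent.Helper11K9.Dens.DensA
import Pool.Agent.Helper11K9.Dens.Dom
import Pool.Agent.Helper11K9.Dens.CritDefs

/-!
# The standard conjectures for products, for the `ℓ`-adic theories with `ℓ` in a set of positive
lower density
-/

set_option autoImplicit false
set_option linter.unusedSectionVars false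

open CategoryTheory AlgebraicGeometry TensorProduct Polynomial

universe u v w

namespace Pool.Agent.Helper11K9.Dens

open Pool.Agent.H914 Pool.Agent.H914.VarClass Pool.Agent.H914.VarClass.Obj
  Pool.Agent.H914.WeilCohomology Pool.Agent.H281R3.HT Pool.Agent.W534 Pool.Agent.R908

variable {k : Type u} [Field k] {𝒱 : VarClass k} {ops : CycleOps 𝒱}

lemma exists_pieces {W : WeilCohomology.{u, v} ops} {p : ℕ} {Φ : FrobSystem W p} {V : 𝒱.Obj}
    {P : ℕ → ℚ[X]} (hp : 1 < p) (hW : AreWeilPolynomials (p ^ Φ.e V) P)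
    (h : IsAdmissible Φ V P) : ∃ F, PieceFam Φ (AlgebraicClosure W.K) V P F := by
  rcases h with ⟨hsq, ⟨m, D, hA, h1⟩ | ⟨D, hR, h1⟩⟩
  · exact exists_pieces_ab hA hsq h1
  · exact exists_pieces_rich hR hp hW hsq h1

section Eig

variable {W : WeilCohomology.{u, v} ops} {p : ℕ} {Φ : FrobSystem W p} {Y : 𝒱.Obj}
  {Q : ℕ → ℚ[X]} {L : Type v} [Field L] [Algebra W.K L] [CharZero L]

/-- The eigenvalues of Frobenius are roots of the polynomials. -/
lemma exists_root_of_eig (h : KillsCohomology Φ Y Q) {a : L}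
    (ha : aeval a (minpoly W.K (fr Φ Y)) = 0) :
    ∃ i : Fin (2 * Y.dim + 1), aeval a (Q i) = 0 := by
  classical
  obtain ⟨f, hf⟩ : ∃ f : W.K[X], f = ∏ i ∈ Finset.range (2 * Y.dim + 1),
    (Q i).map (algebraMap ℚ W.K) := ⟨_, rfl⟩
  have hkill : aeval (fr Φ Y) f = 0 := by
    apply gr_ext (W.isInternal Y)
    intro i x hx
    rw [LinearMap.zero_apply]
    by_cases hi : i < 2 * Y.dim + 1
    · have h1 : f = (∏ j ∈ (Finset.range (2 * Y.dim + 1)).erase i,
          (Q j).map (algebraMap ℚ W.K)) * (Q i).map (algebraMap ℚ W.K) := by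
        rw [hf]
        exact (Finset.prod_erase_mul (Finset.range (2 * Y.dim + 1)) (fun j =>
          (Q j).map (algebraMap ℚ W.K)) (Finset.mem_range.2 hi)).symm
      rw [h1, map_mul, Module.End.mul_apply]
      have h2 : aeval (fr Φ Y) ((Q i).map (algebraMap ℚ W.K)) x = 0 := h i x hx
      rw [h2, map_zero]
    · rw [W.gr_eq_bot Y i (by omega), Submodule.mem_bot] at hx
      rw [hx, map_zero]
  obtain ⟨g, hg⟩ := minpoly.dvd W.K (fr Φ Y) hkill
  have h3 : aeval a f = 0 := by rw [hg, map_mul, ha, zero_mul]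
  rw [hf, map_prod, Finset.prod_eq_zero_iff] at h3
  obtain ⟨i, hi', hi⟩ := h3
  refine ⟨⟨i, Finset.mem_range.1 hi'⟩, ?_⟩
  rwa [aeval_map_algebraMap] at hi

end Eig

variable {J I : Type} [Fintype J] [Fintype I] {V : J → 𝒱.Obj} {P : J → ℕ → ℚ[X]}
  {Y : I → 𝒱.Obj} {Q : I → ℕ → ℚ[X]} {p : ℕ}

/-- The weights. -/
def weights (V : J → 𝒱.Obj) (p : ℕ) (e : 𝒱.Obj → ℕ) (x : Ix V) : ℕ := (p ^ e (V x.1)) ^ (x.2 : ℕ)

/-- The weights. -/
def weights' (Y : I → 𝒱.Obj) (p : ℕ) (e : 𝒱.Obj → ℕ) (x : Σ j : I, Fin (2 * (Y j).dim + 1)) : ℕ :=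
  (p ^ e (Y x.1)) ^ (x.2 : ℕ)

lemma isWeilFamily {e : 𝒱.Obj → ℕ} (hp : 0 < p)
    (hP : ∀ j, AreWeilPolynomials (p ^ e (V j)) (P j)) :
    IsWeilFamily (famPoly (fun j => (V j).dim) P) (weights V p e) where
  ne x := ne_zero_of_weil (Nat.pow_pos hp) (hP x.1) _
  pos x := Nat.pow_pos (Nat.pow_pos hp)
  abs x z hz := by
    rw [hP x.1 x.2 z hz, weights]
    push_cast
    rfl

lemma isWeilFamily' {e : 𝒱.Obj → ℕ} (hp : 0 < p)
    (hP : ∀ j, AreWeilPolynomials (p ^ e (V j)) (P j))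
    (hQ : ∀ j, AreWeilPolynomials (p ^ e (Y j)) (Q j)) :
    IsWeilFamily (Sum.elim (famPoly (fun j => (V j).dim) P) (famPoly (fun i => 2 * (Y i).dim) Q))
      (Sum.elim (weights V p e) (weights' Y p e)) where
  ne x := by
    rcases x with x | x
    · exact ne_zero_of_weil (Nat.pow_pos hp) (hP x.1) _
    · exact ne_zero_of_weil (Nat.pow_pos hp) (hQ x.1) _
  pos x := by
    rcases x with x | x
    · exact Nat.pow_pos (Nat.pow_pos hp)
    · exact Nat.pow_pos (Nat.pow_pos hp)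
  abs x z hz := by
    rcases x with x | x
    · rw [hP x.1 x.2 z hz, Sum.elim_inl, weights]
      push_cast
      rfl
    · rw [hQ x.1 x.2 z hz, Sum.elim_inr, weights']
      push_cast
      rfl

/-- The relative exotic relations. -/
lemma relativeSpace_eq {J I : Type} [Fintype J] [Fintype I] (P : J → ℚ[X]) (e : J → ℕ)
    (Q : I → ℚ[X]) (e' : I → ℕ) : relativeSpace P e Q e' =
      relSpace Sum.inl (Sum.elim P Q) (Sum.elim e e') := by
  rw [relativeSpace, relSpace, exoticSpace, Submodule.map_span]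
  congr 1
  ext f
  constructor
  · rintro ⟨r, ⟨s, hs⟩, rfl⟩
    exact ⟨_, ⟨_, hs, rfl⟩, rfl⟩
  · rintro ⟨_, ⟨r, hr, rfl⟩, rfl⟩
    refine ⟨fun j => r (Sum.inl j), ⟨fun i => r (Sum.inr i), ?_⟩, rfl⟩
    have h2 : Sum.elim (fun j => r (Sum.inl j)) (fun i => r (Sum.inr i)) = r := by
      funext x
      rcases x with x | x <;> rfl
    rw [h2]
    exact hr

/-- The relative rank. -/
lemma relativeRank_eq {J I : Type} [Fintype J] [Fintype I] (P : J → ℚ[X]) (e : J → ℕ)
    (Q : I → ℚ[X]) (e' : I → ℕ) : relativeRank P e Q e' =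
      Module.finrank ℚ (relSpace Sum.inl (Sum.elim P Q) (Sum.elim e e')) := by
  rw [relativeRank, relativeSpace_eq]

/-- From the relations to the conjectures. -/
lemma standard_of_relBalanced {W : WeilCohomology.{u, v} ops} (Φ : FrobSystem W p)
    (hp : 1 < p) (hP : ∀ j, AreWeilPolynomials (p ^ Φ.e (V j)) (P j))
    (hV : ∀ j, IsAdmissible Φ (V j) (P j)) (hY : ∀ i, KillsCohomology Φ (Y i) (Q i))
    (hb : RelBalanced (Sum.elim (famPoly (fun j => (V j).dim) P) (famPoly (fun i => 2 * (Y i).dim) Q))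
      (Sum.elim (famExp (fun j => (V j).dim) (fun j => Φ.e (V j))) (famExp (fun i => 2 * (Y i).dim) (fun i => Φ.e (Y i))))
      (Sum.elim (weights V p Φ.e) (weights' Y p Φ.e)) p W.K (AlgebraicClosure W.K))
    (hD : ∀ Z, IsProductOf (Set.range Y) Z → HomEqNum W Z) :
    StandardFor W (Set.range V ∪ Set.range Y) := by
  classical
  have hbal : BalancedFor Φ V P (Set.range Y) := by
    intro l l' hl hl' hrel
    -- the list of roots
    obtain ⟨l'', hl'', hmap⟩ : ∃ l'' : List ((Σ j : I, Fin (2 * (Y j).dim + 1)) ×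
        AlgebraicClosure W.K), (∀ x ∈ l'', aeval x.2 (famPoly (fun i => 2 * (Y i).dim) Q x.1) = 0) ∧
        l'.map (fun y => (y.2, Φ.e y.1)) = l''.map (fun x => (x.2, Φ.e (Y x.1.1))) := by
      clear hrel
      induction l' with
      | nil => exact ⟨[], fun x hx => absurd hx List.not_mem_nil, rfl⟩
      | cons y l' ih =>
        obtain ⟨l'', h1, h2⟩ := ih (fun y hy => hl' y (List.mem_cons_of_mem _ hy))
        obtain ⟨⟨i, hi⟩, h3⟩ := hl' y List.mem_cons_self
        obtain ⟨Y', a⟩ := y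
        obtain rfl : Y i = Y' := hi
        obtain ⟨n, hn⟩ := exists_root_of_eig (hY i) h3
        refine ⟨(⟨i, n⟩, a) :: l'', ?_, ?_⟩
        · intro x hx
          rcases List.mem_cons.1 hx with rfl | hx
          · exact hn
          · exact h1 x hx
        · rw [List.map_cons, List.map_cons, h2]
    rw [hmap] at hrel
    obtain ⟨N, M, hN, h1, h2⟩ := hrel
    have h3 := hb l l'' hl hl'' ⟨N, M, hN, fun x hx => ?_, fun x hx => ?_, ?_⟩
    · refine h3.trans (List.Perm.of_eq ?_)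
      apply List.map_congr_left
      intro x _
      simp only [Sum.elim_inl, weights]
      push_cast
      rfl
    · exact h1 (x.2, Φ.e (V x.1.1)) (List.mem_append_left _ (List.mem_map_of_mem hx))
    · exact h1 (x.2, Φ.e (Y x.1.1)) (List.mem_append_right _ (List.mem_map_of_mem hx))
    · rw [← h2, List.map_append, List.prod_append, List.map_map, List.map_map]
      rfl
  have h5 : ∀ Z, IsProductOf (Set.range V ∪ Set.range Y) Z → HomEqNum W Z := fun Z hZ =>
    homEqNum_of_balanced (fun j => exists_pieces hp (hP j) (hV j)) hD hbal hZ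
  exact fun Z hZ U g hg => standard_of_products h5 Z hZ U g hg

lemma exponents_pos {e : 𝒱.Obj → ℕ} (he : ∀ X, 0 < e X)
    (x : Ix V ⊕ (Σ j : I, Fin (2 * (Y j).dim + 1))) :
    0 < (Sum.elim (famExp (fun j => (V j).dim) (fun j => e (V j))) (famExp (fun i => 2 * (Y i).dim) (fun i => e (Y i)))) x := by
  rcases x with x | x
  · exact he _
  · exact he _

/-- **Products with given varieties.** -/
theorem main_rel [Fact p.Prime] (S : AdicSystem ops p) (hP : ∀ j, AreWeilPolynomials (p ^ S.e (V j)) (P j))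
    (hV : ∀ (ℓ : ℕ) [Fact ℓ.Prime], ℓ ≠ p → ∀ j, IsAdmissible (S.Φ ℓ) (V j) (P j))
    (hQ : ∀ i, AreWeilPolynomials (p ^ S.e (Y i)) (Q i))
    (hY : ∀ (ℓ : ℕ) [Fact ℓ.Prime], ℓ ≠ p → ∀ i, KillsCohomology (S.Φ ℓ) (Y i) (Q i)) :
    HasLowerDensity {ℓ | (∀ Z, IsProductOf (Set.range Y) Z → HomEqNum (S.W ℓ) Z) →
        StandardFor (S.W ℓ) (Set.range V ∪ Set.range Y)}
      ((1 / 2) ^ relativeRank (famPoly (fun j => (V j).dim) P) (famExp (fun j => (V j).dim) (fun j => S.e (V j))) (famPoly (fun i => 2 * (Y i).dim) Q)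
        (famExp (fun i => 2 * (Y i).dim) (fun i => S.e (Y i)))) := by
  classical
  have hp : 0 < p := (S.Φ 0).p_pos
  have he : ∀ X, 0 < S.e X := fun X => by rw [← S.e_eq 0]; exact (S.Φ 0).e_pos _
  rw [relativeRank_eq]
  refine density_rel (isWeilFamily' hp hP hQ) (exponents_pos he) p hp (fun ℓ => (S.W ℓ).K)
    (fun ℓ _ hℓ => S.coeff ℓ hℓ) _ ?_
  intro ℓ _ hℓ hb hD
  have h1 : S.e = (S.Φ ℓ).e := funext (fun X => (S.e_eq ℓ X).symm)
  rw [h1] at hb
  exact standard_of_relBalanced (S.Φ ℓ) (Fact.out : p.Prime).one_lt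
    (fun j => by rw [S.e_eq]; exact hP j) (hV ℓ hℓ) (hY ℓ hℓ) hb hD

/-- **The criterion for one theory.** -/
theorem main_criterion [Fact p.Prime] {W : WeilCohomology.{u, v} ops} (Φ : FrobSystem W p)
    (hP : ∀ j, AreWeilPolynomials (p ^ Φ.e (V j)) (P j))
    (hV : ∀ j, IsAdmissible Φ (V j) (P j))
    (hQ : ∀ i, AreWeilPolynomials (p ^ Φ.e (Y i)) (Q i))
    (hY : ∀ i, KillsCohomology Φ (Y i) (Q i))
    (hE : HasGoodAutomorphism W.K (famPoly (fun j => (V j).dim) P) (famExp (fun j => (V j).dim) (fun j => Φ.e (V j))) (famPoly (fun i => 2 * (Y i).dim) Q)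
      (famExp (fun i => 2 * (Y i).dim) (fun i => Φ.e (Y i))))
    (hD : ∀ Z, IsProductOf (Set.range Y) Z → HomEqNum W Z) :
    StandardFor W (Set.range V ∪ Set.range Y) := by
  classical
  obtain ⟨E, _, _, τ, σ, hE, hσ, hn⟩ := hE
  refine standard_of_relBalanced Φ (Fact.out : p.Prime).one_lt hP hV hY ?_ hD
  intro l l' hl hl' hrel
  refine perm_rel' (isWeilFamily' Φ.p_pos hP hQ) (exponents_pos Φ.e_pos) ?_ τ (σ := σ) ?_ ?_
    l l' hl hl' hrel
  · rintro (x | x) z hz
    · exact hE z (Or.inl ⟨_, hz⟩)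
    · exact hE z (Or.inr ⟨_, hz⟩)
  · intro x z hz
    exact hσ z ⟨_, hz⟩
  · intro f hf hfix
    rw [relativeSpace_eq] at hn
    refine hn f hf (fun x z => ?_)
    have h1 := congrFun (congrFun hfix x) ((σ z : E) : ℂ)
    rw [fnRep_apply, pm_inv_apply] at h1
    have h2 : (σ⁻¹ (σ z) : E) = z := σ.symm_apply_apply z
    rw [h2] at h1
    exact h1.symm

/-- **Products with all varieties at once.** -/
theorem main_all [Fact p.Prime] (S : AdicSystem ops p) (hP : ∀ j, AreWeilPolynomials (p ^ S.e (V j)) (P j))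
    (hV : ∀ (ℓ : ℕ) [Fact ℓ.Prime], ℓ ≠ p → ∀ j, IsAdmissible (S.Φ ℓ) (V j) (P j)) :
    HasLowerDensity {ℓ | ∀ 𝒴 : Set 𝒱.Obj, (∀ Z, IsProductOf 𝒴 Z → HomEqNum (S.W ℓ) Z) →
        StandardFor (S.W ℓ) (Set.range V ∪ 𝒴)} ((1 / 2) ^ pairNumber (famPoly (fun j => (V j).dim) P)) := by
  classical
  have hp : 0 < p := (S.Φ 0).p_pos
  have hW := isWeilFamily (V := V) (P := P) (e := S.e) hp hP
  refine density_pairs hW p hp (fun ℓ => (S.W ℓ).K) (fun ℓ _ hℓ => S.coeff ℓ hℓ) _ ?_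
  intro ℓ _ hℓ hself 𝒴 h𝒴
  have hbal : BalancedFor (S.Φ ℓ) V P 𝒴 := by
    intro l l' hl hl' _
    refine List.Perm.of_eq ?_
    apply List.map_congr_left
    intro x hx
    have h1 := hself x.1 x.2 (hl x hx)
    have h2 : (weights V p S.e x.1 : AlgebraicClosure (S.W ℓ).K) =
        ((p : AlgebraicClosure (S.W ℓ).K) ^ (S.Φ ℓ).e (V x.1.1)) ^ (x.1.2 : ℕ) := by
      simp only [weights, S.e_eq]
      push_cast
      rfl
    rw [← h2]
    exact congrArg (fun f => (x.1, f)) h1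
  exact fun Z hZ U g hg => standard_of_products
    (fun Z hZ => homEqNum_of_balanced (fun j => exists_pieces (Fact.out : p.Prime).one_lt
      (by rw [S.e_eq]; exact hP j) (hV ℓ hℓ j)) h𝒴 hbal hZ) Z hZ U g hg

end Pool.Agent.Helper11K9.Dens
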