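import Pool.Agent.Helper11K9.Dens.MotDefs

/-!
# The varieties over finite fields in the theorems: definitions
-/

set_option autoImplicit false

open CategoryTheory AlgebraicGeometry Polynomial

universe u v

namespace Pool.Agent.Helper11K9.Dens

open Pool.Agent.H914 Pool.Agent.H914.VarClass Pool.Agent.H914.VarClass.Obj
  Pool.Agent.H914.WeilCohomology Pool.Agent.W534 Pool.Agent.R908

variable {k : Type u} [Field k] {𝒱 : VarClass k}

variable {ops : CycleOps 𝒱}

/-- The polynomials `P i` are squarefree, and the variety `V` is one of the following.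
* An abelian variety; the polynomial `P 1` in the Frobenius endomorphism is zero on `H^1(V)`.
* A variety that satisfies B and D and for which the endomorphisms of the transcendental cohomology
  in the degrees `i ≤ dim V` that commute with Frobenius are algebraic; the polynomial `P i` in the
  Frobenius endomorphism is zero on the transcendental cohomology of degree `i`, for
  `i ≤ dim V`. -/
def IsAdmissible {W : WeilCohomology.{u, v} ops} {p : ℕ} (Φ : FrobSystem W p) (V : 𝒱.Obj)
    (P : ℕ → ℚ[X]) : Prop :=
  (∀ i, Squarefree (P i)) ∧
    ((∃ m D, IsAbelianOverFinite Φ V m D ∧ KillsOn (frobAll Φ V) (W.gr V 1) (P 1)) ∨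
      ∃ D, IsRichOverFinite Φ V D ∧ ∀ i ≤ V.dim, KillsOn (frobAll Φ V) (transDeg W V i) (P i))

/-- For all `i` the polynomial `Q i` in the Frobenius endomorphism is zero on `H^i(Y)`. -/
def KillsCohomology {W : WeilCohomology.{u, v} ops} {p : ℕ} (Φ : FrobSystem W p) (Y : 𝒱.Obj)
    (Q : ℕ → ℚ[X]) : Prop :=
  ∀ i, KillsOn (frobAll Φ Y) (W.gr Y i) (Q i)

/-- The standard conjecture D, and the standard conjecture B with respect to every divisor with the
hard Lefschetz property, hold for all varieties `U` with a morphism `g : Z ⟶ U` from a product `Z` of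
members of `R` such that `g^*` is injective on the cohomology (for example `g` surjective). -/
def StandardFor (W : WeilCohomology.{u, v} ops) (R : Set 𝒱.Obj) : Prop :=
  ∀ Z, IsProductOf R Z → ∀ (U : 𝒱.Obj) (g : Z ⟶ U), Function.Injective (W.map g) →
    HomEqNum W U ∧ ∀ D, U.IsCyc 1 D → HardLefschetz W U D → LefschetzB W U D

end Pool.Agent.Helper11K9.Dens
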