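import Pool.Agent.Helper11K9.Dens.MotDefs
import Pool.Agent.R908.KnI
import Pool.Agent.R908.KoB
import Pool.Agent.R908.GenE

/-!
# The graded pieces of the transcendental cohomology
-/

set_option autoImplicit false

open CategoryTheory AlgebraicGeometry TensorProduct Polynomial

universe u v w

namespace Pool.Agent.Helper11K9.Dens

open Pool.Agent.H914 Pool.Agent.H914.VarClass Pool.Agent.H914.VarClass.Obj
  Pool.Agent.H914.WeilCohomology Pool.Agent.H281R3.HT Pool.Agent.W534 Pool.Agent.R908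

variable {k : Type u} [Field k] {𝒱 : VarClass k} {ops : CycleOps 𝒱}
  {W : WeilCohomology.{u, v} ops} {p : ℕ} {Φ : FrobSystem W p} {X : 𝒱.Obj} {D : X.Cycles}

/-- The projector to the transcendental cohomology of degree `i`. -/
noncomputable def eTi (s : TSplit W X) (i : ℕ) : W.H X →ₗ[W.K] W.H X :=
  proj (W.isInternal X) i ∘ₗ s.eT

lemma proj_eT (s : TSplit W X) (i : ℕ) : proj (W.isInternal X) i ∘ₗ s.eT =
    s.eT ∘ₗ proj (W.isInternal X) i := by
  apply gr_ext (W.isInternal X)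
  intro j x hx
  rw [LinearMap.comp_apply, LinearMap.comp_apply]
  by_cases h : j = i
  · subst h
    rw [proj_same _ hx, proj_same _ (Mot.hom_deg0 s.mem0 hx)]
  · rw [proj_ne _ hx h, proj_ne _ (Mot.hom_deg0 s.mem0 hx) h, map_zero]

lemma eTi_range (s : TSplit W X) (i : ℕ) (x : W.H X) : eTi s i x ∈ transDeg W X i :=
  ⟨proj_mem _ i _, proj_trans i (s.mem_T x)⟩

lemma eTi_fix (s : TSplit W X) {i : ℕ} {x : W.H X} (hx : x ∈ transDeg W X i) : eTi s i x = x := by
  rw [eTi, LinearMap.comp_apply, s.fix _ hx.2, proj_same _ hx.1]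

lemma eTi_idem (s : TSplit W X) (i : ℕ) : eTi s i ∘ₗ eTi s i = eTi s i := by
  apply LinearMap.ext
  intro x
  exact eTi_fix s (eTi_range s i x)

lemma eTi_comm (s : TSplit W X) (i : ℕ) {φ : W.H X →ₗ[W.K] W.H X} (hφ : φ ∈ KOp W X X 0) :
    φ ∘ₗ eTi s i = eTi s i ∘ₗ φ := by
  apply gr_ext (W.isInternal X)
  intro j x hx
  have h1 : φ (s.eT x) = s.eT (φ x) := congrArg (fun F => F x) (s.comm hφ)
  rw [LinearMap.comp_apply, LinearMap.comp_apply, eTi, LinearMap.comp_apply, LinearMap.comp_apply,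
    ← h1]
  by_cases h : j = i
  · subst h
    rw [proj_same _ (Mot.hom_deg0 s.mem0 hx), proj_same _ (Mot.hom_deg0 hφ (Mot.hom_deg0 s.mem0 hx))]
  · rw [proj_ne _ (Mot.hom_deg0 s.mem0 hx) h,
      proj_ne _ (Mot.hom_deg0 hφ (Mot.hom_deg0 s.mem0 hx)) h, map_zero]

lemma frob_lefP (hD : IsScaled (frobAll Φ X) (p ^ Φ.e X) (W.cl X D)) (n : ℕ) (x : W.H X) :
    fr Φ X (lefP W X D n x) = (((p : W.K) ^ Φ.e X) ^ n) • lefP W X D n (fr Φ X x) := by
  have hfq : fr Φ X (W.cl X D) = ((p : W.K) ^ Φ.e X) • W.cl X D := by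
    have h1 : fr Φ X (W.cl X D) = ((p ^ Φ.e X : ℕ) : W.K) • W.cl X D := hD
    rw [h1, Nat.cast_pow]
  have hmulfr : ∀ x y : W.H X, fr Φ X (x * y) = fr Φ X x * fr Φ X y :=
    fun x y => map_mul (W.map (Φ.Fr X)) x y
  induction n with
  | zero => rw [pow_zero, one_smul]; rfl
  | succ n ih =>
    have h1 : ∀ y, lefP W X D (n + 1) y = W.cl X D * lefP W X D n y := by
      intro y
      rw [lefP, pow_succ', Module.End.mul_apply]
      rfl
    rw [h1, h1, hmulfr, hfq, ih, smul_mul_smul_comm, pow_succ']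

/-- **The transcendental cohomology of degree `i` is a piece.** -/
theorem isPiece_deg (h : IsRichOverFinite Φ X D) (s : TSplit W X) {i : ℕ} (hi : i ≤ X.dim)
    (hmem : eTi s i ∈ KOp W X X 0) {P : W.K[X]} (hsq : Squarefree P) (hP : ∀ x ∈ transDeg W X i, aeval (fr Φ X) P x = 0) :
    IsPiece Φ X (eTi s i) P (((p : W.K) ^ Φ.e X) ^ i) ((X.dim - i : ℕ) : ℤ)
      (lefP W X D (X.dim - i)) where
  mem := hmem
  idem := eTi_idem s i
  comm := eTi_comm s i (KOp.mapHom (Φ.Fr X))
  sqf := hsq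
  poly := by
    apply LinearMap.ext
    intro x
    exact hP _ (eTi_range s i x)
  tate := by
    intro φ h1 h2 h3
    obtain ⟨ψ, hψ', h4⟩ := h.tate i hi φ (fun x _ => by
      rw [← h2]
      exact eTi_range s i _) (fun x _ => congrArg (fun F => F x) h3)
    have h5 : φ = ψ ∘ₗ eTi s i := by
      apply LinearMap.ext
      intro x
      conv_lhs => rw [← h1]
      exact (h4 _ (eTi_range s i x)).symm
    rw [h5]
    exact KOp.cast (KOp.comp (cycOps_le X hψ') hmem) (add_zero 0)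
  θ_mem := lefP_mem h.divisor _
  c_ne := pow_ne_zero _ (pow_ne_zero _ (cast_p_ne Φ))
  θ_eq := by
    intro x y
    obtain ⟨a, hxa⟩ : ∃ a, a = eTi s i x := ⟨_, rfl⟩
    obtain ⟨b, hyb⟩ : ∃ b, b = eTi s i y := ⟨_, rfl⟩
    rw [← hxa, ← hyb]
    have hpne : ((p : W.K) ^ Φ.e X) ≠ 0 := pow_ne_zero _ (cast_p_ne Φ)
    have h1 := fr_tr (Φ := Φ) (a * lefP W X D (X.dim - i) b)
    have hmulfr : ∀ x y : W.H X, fr Φ X (x * y) = fr Φ X x * fr Φ X y :=
      fun x y => map_mul (W.map (Φ.Fr X)) x y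
    rw [hmulfr, frob_lefP h.rational, mul_smul_comm, map_smul, smul_eq_mul] at h1
    apply mul_left_cancel₀ (pow_ne_zero (X.dim - i) hpne)
    rw [h1, ← mul_assoc, ← pow_add, show X.dim - i + i = X.dim by omega]
  nondeg := by
    intro x hx
    obtain ⟨a, hxa⟩ : ∃ a, a = eTi s i x := ⟨_, rfl⟩
    have ha : a ∈ transDeg W X i := hxa ▸ eTi_range s i x
    rw [← hxa] at hx ⊢
    have hξ : W.cl X D ∈ W.gr X 2 := W.cl_mem h.divisor
    apply W.nondeg
    intro b
    refine gr_induction (W.isInternal X) (p := fun b => W.tr X (a * b) = 0) ?_ ?_ b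
    · intro j b hb
      by_cases hj : j = 2 * X.dim - i
      · subst hj
        obtain ⟨b', hb', rfl⟩ := (h.lefschetz i hi).2 b hb
        have h1 : ((LinearMap.mulLeft W.K (W.cl X D)) ^ (X.dim - i)) b' =
            lefP W X D (X.dim - i) b' := rfl
        have h2 : ∀ y, W.tr X (a * lefP W X D (X.dim - i) y) =
            W.tr X (lefP W X D (X.dim - i) a * y) := by
          intro y
          rw [lefP_eq, lefP_eq, ← mul_assoc, pow_comm hξ]
        rw [h1, h2]
        have h3 : lefP W X D (X.dim - i) a ∈ transcendental W X :=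
          KOp.trans (lefP_mem h.divisor _) ha.2
        rw [s.tr_right h3]
        have h4 : s.eT b' = eTi s i b' := by
          rw [eTi, LinearMap.comp_apply, proj_same _ (Mot.hom_deg0 s.mem0 hb')]
        rw [h4, ← h2]
        exact hx b'
      · exact W.tr_eq_zero (W.mul_mem ha.1 hb) (by omega)
    · intro x y hx hy
      rw [mul_add, map_add, hx, hy, add_zero]

/-- The inverse of the power of the Lefschetz operator. -/
lemma exists_inv_lef (h : IsRichOverFinite Φ X D) {c : ℕ} (hc : c ≤ X.dim) :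
    ∃ θ ∈ KOp W X X (-c), ∀ a ∈ W.gr X (X.dim - c), θ (lefP W X D c a) = a := by
  obtain ⟨Λ, hΛ, hLam⟩ := lefschetzB_iff_rop.1 h.lefschetzB
  obtain ⟨ν, hν, hinj⟩ := inj_of_lam h.divisor h.lefschetz
    (mem_KS_iff.1 (Submodule.subset_span hΛ)) hLam c hc
  obtain ⟨θ, hθ, h1⟩ := rop_opAlg.exists_theta_of_inj
    (Submodule.subset_span (rop_mulLeft (W := W) h.divisor)) h.lefschetz hc (mem_KS_iff.2 hν) hinj
  exact ⟨θ, mem_KS_iff.1 hθ, h1⟩

/-- The inverse of the power of the Lefschetz operator preserves the transcendental cohomology. -/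
lemma exists_lef (h : IsRichOverFinite Φ X D) {c : ℕ} (hc : c ≤ X.dim) {t : W.H X}
    (ht : t ∈ transDeg W X (X.dim + c)) :
    ∃ a ∈ transDeg W X (X.dim - c), lefP W X D c a = t := by
  obtain ⟨θ, hθ, hinv⟩ := exists_inv_lef h hc
  obtain ⟨a, ha, hat⟩ := (h.lefschetz (X.dim - c) (by omega)).2 t
    (by rw [show 2 * X.dim - (X.dim - c) = X.dim + c by omega]; exact ht.1)
  have h2 : lefP W X D c a = t := by
    rw [← hat, show X.dim - (X.dim - c) = c by omega]
    rfl
  have h3 : θ t = a := by rw [← h2, hinv a ha]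
  exact ⟨a, ⟨ha, by rw [← h3]; exact KOp.trans hθ ht.2⟩, h2⟩

/-- The polynomials for all degrees. -/
noncomputable def fullP (n q : ℕ) (P : ℕ → ℚ[X]) (j : ℕ) : ℚ[X] :=
  if j ≤ n then P j else (P (2 * n - j)).scaleRoots ((q : ℚ) ^ (j - n))

lemma aeval_scaleRoots' {K A : Type*} [Field K] [Ring A] [Algebra K A] (P : K[X]) (s : K)
    (a : A) : aeval (algebraMap K A s * a) (P.scaleRoots s) =
      algebraMap K A s ^ P.natDegree * aeval a P := by
  rw [aeval_def, aeval_def]
  exact scaleRoots_eval₂_mul_of_commute (algebraMap K A) a s (Algebra.commutes s a)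
    (fun s₁ s₂ => Algebra.commutes s₁ _)

lemma fullP_abs {q : ℕ} (hq : 0 < q) {P : ℕ → ℚ[X]} (hP : AreWeilPolynomials q P) {n j : ℕ}
    (hj : j ≤ 2 * n) {z : ℂ} (hz : aeval z (fullP n q P j) = 0) : ‖z‖ ^ 2 = (q : ℝ) ^ j := by
  by_cases h : j ≤ n
  · rw [fullP, if_pos h] at hz
    exact hP j z hz
  · rw [fullP, if_neg h] at hz
    have hq0 : ((q : ℂ) ^ (j - n)) ≠ 0 := pow_ne_zero _ (by exact_mod_cast hq.ne')
    have h1 : algebraMap ℚ ℂ ((q : ℚ) ^ (j - n)) = (q : ℂ) ^ (j - n) := by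
      rw [map_pow, map_natCast]
    have h2 := aeval_scaleRoots' (P (2 * n - j)) ((q : ℚ) ^ (j - n)) (z / (q : ℂ) ^ (j - n))
    rw [h1, mul_div_cancel₀ _ hq0, hz] at h2
    have h3 := hP _ _ ((mul_eq_zero.1 h2.symm).resolve_left (pow_ne_zero _ hq0))
    rw [norm_div, norm_pow, Complex.norm_natCast, div_pow, div_eq_iff (by positivity), ← pow_mul,
      ← pow_add] at h3
    rw [h3]
    congr 1
    omega

lemma fullP_coprime {q : ℕ} (hq : 1 < q) {P : ℕ → ℚ[X]} (hP : AreWeilPolynomials q P) {n i j : ℕ}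
    (hi : i ≤ 2 * n) (hj : j ≤ 2 * n) (hij : i ≠ j) :
    IsCoprime (fullP n q P i) (fullP n q P j) := by
  rw [Polynomial.isCoprime_iff_aeval_ne_zero_of_isAlgClosed ℚ ℂ]
  intro z
  by_contra hcon
  push Not at hcon
  have h1 := fullP_abs (by omega) hP hi hcon.1
  have h2 := fullP_abs (by omega) hP hj hcon.2
  rw [h1] at h2
  exact hij (pow_right_injective₀ (by positivity) (by exact_mod_cast hq.ne') h2)

lemma ne_zero_of_weil {q : ℕ} (hq : 0 < q) {P : ℕ → ℚ[X]} (h : AreWeilPolynomials q P) (i : ℕ) :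
    P i ≠ 0 := by
  intro h0
  have h1 := h i 0 (by rw [h0, map_zero])
  rw [norm_zero] at h1
  have h2 : (0 : ℝ) < (q : ℝ) ^ i := by positivity
  rw [← h1] at h2
  norm_num at h2

lemma fullP_kills (h : IsRichOverFinite Φ X D) {P : ℕ → ℚ[X]}
    (hW : AreWeilPolynomials (p ^ Φ.e X) P)
    (hP : ∀ i ≤ X.dim, KillsOn (frobAll Φ X) (transDeg W X i) (P i)) {j : ℕ}
    (hj : j ≤ 2 * X.dim) {x : W.H X} (hx : x ∈ transDeg W X j) :
    aeval (fr Φ X) ((fullP X.dim (p ^ Φ.e X) P j).map (algebraMap ℚ W.K)) x = 0 := by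
  by_cases hjn : j ≤ X.dim
  · rw [fullP, if_pos hjn]
    exact hP j hjn x hx
  · rw [fullP, if_neg hjn]
    obtain ⟨c, rfl⟩ : ∃ c, j = X.dim + c := ⟨j - X.dim, by omega⟩
    have hc : c ≤ X.dim := by omega
    obtain ⟨a, ha, rfl⟩ := exists_lef h hc hx
    rw [show 2 * X.dim - (X.dim + c) = X.dim - c by omega,
      show X.dim + c - X.dim = c by omega]
    have hne : P (X.dim - c) ≠ 0 := ne_zero_of_weil (Nat.pow_pos Φ.p_pos) hW _
    rw [map_scaleRoots _ _ _ (by
      rw [Ne, map_eq_zero]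
      exact leadingCoeff_ne_zero.2 hne)]
    obtain ⟨s, hs⟩ : ∃ s : W.K, s = ((p : W.K) ^ Φ.e X) ^ c := ⟨_, rfl⟩
    have hs' : algebraMap ℚ W.K (((p ^ Φ.e X : ℕ) : ℚ) ^ c) = s := by
      rw [hs, map_pow, map_natCast]
      push_cast
      rfl
    rw [hs']
    -- the intertwining relation
    have hint : ∀ y, fr Φ X (lefP W X D c y) =
        lefP W X D c ((algebraMap W.K (Module.End W.K (W.H X)) s * fr Φ X) y) := by
      intro y
      rw [frob_lefP h.rational, Module.End.mul_apply, Module.algebraMap_end_apply, map_smul, hs]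
    have hpoly : ∀ (f : W.K[X]) y, aeval (fr Φ X) f (lefP W X D c y) =
        lefP W X D c (aeval (algebraMap W.K (Module.End W.K (W.H X)) s * fr Φ X) f y) := by
      intro f
      have hpow : ∀ (n : ℕ) y, (fr Φ X ^ n) (lefP W X D c y) =
          lefP W X D c (((algebraMap W.K (Module.End W.K (W.H X)) s * fr Φ X) ^ n) y) := by
        intro n
        induction n with
        | zero => intro y; rfl
        | succ n ih =>
          intro y
          rw [pow_succ, Module.End.mul_apply, hint, ih, pow_succ]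
          rfl
      induction f using Polynomial.induction_on' with
      | add f g hf hg =>
        intro y
        rw [map_add, map_add, LinearMap.add_apply, LinearMap.add_apply, hf, hg, map_add]
      | monomial n r =>
        intro y
        rw [aeval_monomial, aeval_monomial, Module.End.mul_apply, Module.End.mul_apply, hpow,
          Module.algebraMap_end_apply, Module.algebraMap_end_apply, map_smul]
    have h1 : aeval (fr Φ X) ((P (X.dim - c)).map (algebraMap ℚ W.K)) a = 0 :=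
      hP _ (Nat.sub_le _ _) a ha
    rw [hpoly, aeval_scaleRoots', Module.End.mul_apply, h1, map_zero, map_zero]

/-- **The projectors to the graded pieces are algebraic.** -/
theorem eTi_mem (h : IsRichOverFinite Φ X D) (s : TSplit W X) (hp : 1 < p) {P : ℕ → ℚ[X]}
    (hW : AreWeilPolynomials (p ^ Φ.e X) P)
    (hP : ∀ i ≤ X.dim, KillsOn (frobAll Φ X) (transDeg W X i) (P i)) {i : ℕ}
    (hi : i ≤ 2 * X.dim) : eTi s i ∈ KOp W X X 0 := by
  classical
  have hq : 1 < p ^ Φ.e X := Nat.one_lt_pow (Φ.e_pos X).ne' hp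
  obtain ⟨R, hR⟩ : ∃ R : ℕ → W.K[X], R = fun j =>
    (fullP X.dim (p ^ Φ.e X) P j).map (algebraMap ℚ W.K) := ⟨_, rfl⟩
  have hkill : ∀ j ≤ 2 * X.dim, ∀ x ∈ transDeg W X j, aeval (fr Φ X) (R j) x = 0 := by
    intro j hj x hx
    rw [hR]
    exact fullP_kills h hW hP hj hx
  obtain ⟨S, hS⟩ : ∃ S : Finset ℕ, S = (Finset.range (2 * X.dim + 1)).erase i := ⟨_, rfl⟩
  have hcop : IsCoprime (R i) (∏ j ∈ S, R j) := by
    apply IsCoprime.prod_right
    intro j hj
    rw [hS, Finset.mem_erase, Finset.mem_range] at hj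
    rw [hR]
    exact (fullP_coprime hq hW hi (by omega) (Ne.symm hj.1)).map (mapRingHom (algebraMap ℚ W.K))
  obtain ⟨a, b, hab⟩ := hcop
  have key : eTi s i = aeval (fr Φ X) (b * ∏ j ∈ S, R j) ∘ₗ s.eT := by
    apply gr_ext (W.isInternal X)
    intro j x hx
    have hx' := Mot.hom_deg0 s.mem0 hx
    have hxT : s.eT x ∈ transDeg W X j := ⟨hx', s.mem_T x⟩
    rw [eTi, LinearMap.comp_apply, LinearMap.comp_apply]
    by_cases hij : j = i
    · subst hij
      rw [proj_same _ hx']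
      have h1 : aeval (fr Φ X) (a * R j + b * ∏ j ∈ S, R j) (s.eT x) = s.eT x := by
        rw [hab, map_one]
        rfl
      rw [map_add, LinearMap.add_apply, map_mul (aeval (fr Φ X)) a, Module.End.mul_apply,
        hkill j hi _ hxT, map_zero, zero_add] at h1
      exact h1.symm
    · rw [proj_ne _ hx' hij]
      by_cases hj : j ≤ 2 * X.dim
      · have hjS : j ∈ S := by
          rw [hS, Finset.mem_erase, Finset.mem_range]
          exact ⟨hij, by omega⟩
        rw [← Finset.prod_erase_mul S R hjS, ← mul_assoc, map_mul, Module.End.mul_apply,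
          hkill j hj _ hxT, map_zero]
      · rw [W.gr_eq_bot X j (by omega), Submodule.mem_bot] at hx'
        rw [hx', map_zero]
  rw [key]
  exact KOp.cast (KOp.comp (KOp.aevalE (KOp.mapHom (Φ.Fr X)) _) s.mem0) (add_zero 0)

end Pool.Agent.Helper11K9.Dens
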