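import Pool.Agent.Helper11K9.Dens.MotA
import Pool.Agent.R908.KoC

/-!
# The identity operators as sums of operators factoring through pieces
-/

set_option autoImplicit false

open CategoryTheory AlgebraicGeometry TensorProduct Polynomial

universe u v w

namespace Pool.Agent.Helper11K9.Dens

open Pool.Agent.H914 Pool.Agent.H914.VarClass Pool.Agent.H914.VarClass.Obj
  Pool.Agent.H914.WeilCohomology Pool.Agent.H281R3.HT Pool.Agent.W534 Pool.Agent.R908

variable {k : Type u} [Field k] {𝒱 : VarClass k} {ops : CycleOps 𝒱}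
  {W : WeilCohomology.{u, v} ops} {p : ℕ} {Φ : FrobSystem W p} {X Y Z : 𝒱.Obj} {D : X.Cycles}

variable {L : Type v} [Field L] [Algebra W.K L]

lemma upW_comp (φ : W.H Y →ₗ[W.K] W.H Z) (ψ : W.H X →ₗ[W.K] W.H Y) :
    upW L (φ ∘ₗ ψ) = upW L φ ∘ₗ upW L ψ := LinearMap.baseChange_comp ψ φ

lemma upW_add (φ ψ : W.H X →ₗ[W.K] W.H Y) : upW L (φ + ψ) = upW L φ + upW L ψ :=
  LinearMap.baseChange_add φ ψ

lemma upW_zero : upW L (0 : W.H X →ₗ[W.K] W.H Y) = 0 := LinearMap.baseChange_zero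

lemma upW_id : upW L (LinearMap.id : W.H X →ₗ[W.K] W.H X) = LinearMap.id :=
  LinearMap.baseChange_id

lemma upW_sum_mem {ι : Type*} (s : Finset ι) (φ : ι → (W.H X →ₗ[W.K] W.H Y))
    {Q : Mot (baseW W L) → Prop} (h : ∀ i ∈ s, upW L (φ i) ∈ RetOp (baseW W L) Q X Y) :
    upW L (∑ i ∈ s, φ i) ∈ RetOp (baseW W L) Q X Y := by
  classical
  induction s using Finset.induction_on with
  | empty => rw [Finset.sum_empty, upW_zero]; exact Submodule.zero_mem _
  | insert a s ha ih =>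
    rw [Finset.sum_insert ha, upW_add]
    exact Submodule.add_mem _ (h a (Finset.mem_insert_self _ _))
      (ih (fun i hi => h i (Finset.mem_insert_of_mem hi)))

/-- The operator of a piece is a sum of letters. -/
lemma piece_mem {e : W.H X →ₗ[W.K] W.H X} {P : W.K[X]} {c : W.K} {δ : ℤ}
    {θ : W.H X →ₗ[W.K] W.H X} (h : IsPiece Φ X e P c δ θ) {R : Finset L} (hR : IsRoots P R)
    {Q : Mot (baseW W L) → Prop} (hQ : ∀ b ∈ R, Q (h.lett hR b)) :
    upW L e ∈ RetOp (baseW W L) Q X X := by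
  rw [h.sum_ep hR]
  refine Submodule.sum_mem _ (fun b hb => ?_)
  exact RetOp.self (B := h.lett hR b) (hQ b hb)

/-- The zero piece. -/
lemma isPiece_zero (X : 𝒱.Obj) {P : W.K[X]} (hP : Squarefree P) {c : W.K} (hc : c ≠ 0) :
    IsPiece Φ X 0 P c 0 LinearMap.id where
  mem := Submodule.zero_mem _
  idem := LinearMap.comp_zero _
  comm := by rw [LinearMap.comp_zero, LinearMap.zero_comp]
  sqf := hP
  poly := LinearMap.comp_zero _
  tate := by
    intro φ h1 _ _
    rw [← h1, LinearMap.comp_zero]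
    exact Submodule.zero_mem _
  θ_mem := KOp.id X
  c_ne := hc
  θ_eq := by
    intro x y
    simp only [LinearMap.zero_apply, map_zero, mul_zero]
  nondeg := fun _ _ => rfl

variable [IsAlgClosed L] {P : ℕ → ℚ[X]}

/-- The properties of the family of pieces. -/
def PieceFam (Φ : FrobSystem W p) (L : Type v) [Field L] [Algebra W.K L] (X : 𝒱.Obj)
    (P : ℕ → ℚ[X]) (F : Fin (X.dim + 1) → PieceData Φ) : Prop :=
  (∀ i, (F i).V = X) ∧ (∀ i, (F i).P = (P i).map (algebraMap ℚ W.K)) ∧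
    (∀ i : Fin (X.dim + 1), (F i).c = ((p : W.K) ^ Φ.e X) ^ (i : ℕ)) ∧
    ∀ Q : Mot (baseW W L) → Prop, (∀ A B, Q A → Q B → Q (A.tensor B)) → (∀ B, B.Alg → Q B) →
      (∀ i (R : Finset L) (hR : IsRoots (F i).P R), ∀ b ∈ R, Q ((F i).h.lett hR b)) →
      (LinearMap.id : (baseW W L).H X →ₗ[(baseW W L).K] (baseW W L).H X) ∈
        RetOp (baseW W L) Q X X

lemma exists_isRoots {P : ℚ[X]} (hP : Squarefree P) :
    Squarefree (P.map (algebraMap ℚ W.K)) ∧
      ∃ R : Finset L, IsRoots (W := W) (P.map (algebraMap ℚ W.K)) R := by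
  have h1 : Squarefree (P.map (algebraMap ℚ W.K)) :=
    (Polynomial.Separable.map (PerfectField.separable_iff_squarefree.2 hP)).squarefree
  exact ⟨h1, exists_roots h1⟩

/-- **Rich varieties.** -/
theorem exists_pieces_rich (h : IsRichOverFinite Φ X D) (hp : 1 < p)
    (hW : AreWeilPolynomials (p ^ Φ.e X) P) (hsq : ∀ i, Squarefree (P i))
    (hP : ∀ i ≤ X.dim, KillsOn (frobAll Φ X) (transDeg W X i) (P i)) :
    ∃ F, PieceFam Φ L X P F := by
  obtain ⟨s⟩ := exists_tSplit h.homEqNum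
  have hmem : ∀ i ≤ 2 * X.dim, eTi s i ∈ KOp W X X 0 := fun i hi => eTi_mem h s hp hW hP hi
  have hpiece : ∀ i : Fin (X.dim + 1), IsPiece Φ X (eTi s i) ((P i).map (algebraMap ℚ W.K))
      (((p : W.K) ^ Φ.e X) ^ (i : ℕ)) ((X.dim - i : ℕ) : ℤ) (lefP W X D (X.dim - i)) :=
    fun i => isPiece_deg h s (Nat.lt_succ_iff.1 i.2) (hmem i (by omega))
      (exists_isRoots (W := W) (L := L) (hsq i)).1 (hP i (Nat.lt_succ_iff.1 i.2))
  refine ⟨fun i => ⟨X, _, _, _, _, _, hpiece i⟩, fun _ => rfl, fun _ => rfl, fun _ => rfl, ?_⟩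
  intro Q hQt hQa hQl
  have hlow : ∀ i ≤ X.dim, upW L (eTi s i) ∈ RetOp (baseW W L) Q X X := by
    intro i hi
    obtain ⟨R, hR⟩ := (exists_isRoots (W := W) (L := L) (hsq i)).2
    exact piece_mem (hpiece ⟨i, Nat.lt_succ_iff.2 hi⟩) hR
      (fun b hb => hQl ⟨i, Nat.lt_succ_iff.2 hi⟩ R hR b hb)
  have hhigh : ∀ c ≤ X.dim, upW L (eTi s (X.dim + c)) ∈ RetOp (baseW W L) Q X X := by
    intro c hc
    obtain ⟨θ, hθ, hinv⟩ := exists_inv_lef h hc
    have h1 : eTi s (X.dim + c) =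
        lefP W X D c ∘ₗ (eTi s (X.dim - c) ∘ₗ (θ ∘ₗ eTi s (X.dim + c))) := by
      apply LinearMap.ext
      intro x
      obtain ⟨t, ht⟩ : ∃ t, t = eTi s (X.dim + c) x := ⟨_, rfl⟩
      have htm : t ∈ transDeg W X (X.dim + c) := ht ▸ eTi_range s _ x
      rw [LinearMap.comp_apply, LinearMap.comp_apply, LinearMap.comp_apply, ← ht]
      obtain ⟨a, ha, hat⟩ := exists_lef h hc htm
      have h3 : θ t = a := by rw [← hat, hinv a ha.1]
      rw [h3, eTi_fix s ha, hat]
    rw [h1, upW_comp, upW_comp, upW_comp]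
    refine RetOp.comp_left (δ := c) ?_ (upW_mem (lefP_mem h.divisor c))
    exact RetOp.comp_right (hlow _ (Nat.sub_le _ _))
      (KOp.comp (upW_mem hθ) (upW_mem (hmem _ (by omega))))
  have hsum : (LinearMap.id : W.H X →ₗ[W.K] W.H X) =
      ∑ j, s.eA j + ∑ i ∈ Finset.range (2 * X.dim + 1), eTi s i := by
    have h1 : s.eT = ∑ i ∈ Finset.range (2 * X.dim + 1), eTi s i := by
      apply gr_ext (W.isInternal X)
      intro j x hx
      have h2 := Mot.hom_deg0 s.mem0 hx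
      rw [LinearMap.sum_apply]
      by_cases hj : j < 2 * X.dim + 1
      · rw [Finset.sum_eq_single_of_mem j (Finset.mem_range.2 hj)]
        · rw [eTi, LinearMap.comp_apply, proj_same _ h2]
        · intro i _ hij
          rw [eTi, LinearMap.comp_apply, proj_ne _ h2 (Ne.symm hij)]
      · rw [W.gr_eq_bot X j (by omega), Submodule.mem_bot] at h2
        rw [h2, Finset.sum_eq_zero]
        intro i _
        rw [eTi, LinearMap.comp_apply, h2, map_zero]
    rw [← h1, s.sum]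
  rw [← upW_id, hsum, upW_add]
  refine Submodule.add_mem _ (upW_sum_mem _ _ (fun j _ => ?_)) (upW_sum_mem _ _ (fun i hi => ?_))
  · obtain ⟨m, i, ha⟩ := s.alg_up L j
    exact RetOp.self (B := ⟨X, upW L (s.eA j), m, i⟩) (hQa _ ha)
  · rw [Finset.mem_range] at hi
    by_cases hi' : i ≤ X.dim
    · exact hlow i hi'
    · have h2 := hhigh (i - X.dim) (by omega)
      rwa [show X.dim + (i - X.dim) = i by omega] at h2

/-- **Abelian varieties.** -/
theorem exists_pieces_ab {A : 𝒱.Obj} {m : A.prod A ⟶ A} {D : A.Cycles}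
    (hA : IsAbelianOverFinite Φ A m D) (hsq : ∀ i, Squarefree (P i))
    (hP : ∀ x ∈ W.gr A 1, aeval (fr Φ A) ((P 1).map (algebraMap ℚ W.K)) x = 0) :
    ∃ F, PieceFam Φ L A P F := by
  by_cases hone : (1 : W.H A) = 0
  · -- the cohomology is zero
    have hzero : ∀ x : W.H A, x = 0 := by
      intro x
      calc x = 1 * x := (one_mul x).symm
        _ = 0 := by rw [hone, zero_mul]
    refine ⟨fun i => ⟨A, 0, (P i).map (algebraMap ℚ W.K), ((p : W.K) ^ Φ.e A) ^ (i : ℕ), 0,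
      LinearMap.id, isPiece_zero A (exists_isRoots (W := W) (L := L) (hsq i)).1
        (pow_ne_zero _ (pow_ne_zero _ (cast_p_ne Φ)))⟩, fun _ => rfl, fun _ => rfl,
      fun _ => rfl, ?_⟩
    intro Q _ _ _
    have h1 : (LinearMap.id : W.H A →ₗ[W.K] W.H A) = 0 := by
      apply LinearMap.ext
      intro x
      exact hzero _
    rw [← upW_id, h1, upW_zero]
    exact Submodule.zero_mem _
  obtain ⟨π, hπ, hK⟩ := exists_projs hA.abelianLike
  have hone' := isPiece_one hA hπ hK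
  have hrange : ∀ x, π 1 x ∈ W.gr A 1 := hπ.mem_gr 1
  have hpiece1 : IsPiece Φ A (π 1) ((P 1).map (algebraMap ℚ W.K)) ((p : W.K) ^ Φ.e A)
      ((A.dim - 1 : ℕ) : ℤ) (lefP W A D (A.dim - 1)) :=
    { mem := hone'.mem
      idem := hone'.idem
      comm := hone'.comm
      sqf := (exists_isRoots (W := W) (L := L) (hsq 1)).1
      poly := by
        apply LinearMap.ext
        intro x
        exact hP _ (hrange x)
      tate := hone'.tate
      θ_mem := hone'.θ_mem
      c_ne := hone'.c_ne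
      θ_eq := hone'.θ_eq
      nondeg := hone'.nondeg }
  have hpiece : ∀ i : Fin (A.dim + 1), ∃ (e : W.H A →ₗ[W.K] W.H A) (δ : ℤ)
      (θ : W.H A →ₗ[W.K] W.H A), IsPiece Φ A e ((P i).map (algebraMap ℚ W.K))
        (((p : W.K) ^ Φ.e A) ^ (i : ℕ)) δ θ ∧ ((i : ℕ) = 1 → e = π 1) := by
    intro i
    by_cases hi : (i : ℕ) = 1
    · refine ⟨π 1, ((A.dim - 1 : ℕ) : ℤ), lefP W A D (A.dim - 1), ?_, fun _ => rfl⟩
      rw [hi, pow_one]
      exact hpiece1
    · exact ⟨0, 0, LinearMap.id, isPiece_zero A (exists_isRoots (W := W) (L := L) (hsq i)).1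
        (pow_ne_zero _ (pow_ne_zero _ (cast_p_ne Φ))), fun h => absurd h hi⟩
  choose e δ θ hF he using hpiece
  refine ⟨fun i => ⟨A, e i, _, _, δ i, θ i, hF i⟩, fun _ => rfl, fun _ => rfl, fun _ => rfl, ?_⟩
  intro Q hQt hQa hQl
  have htop := tr_top_ne hA.lefschetz hA.divisor hone
  have hc0 : (W.cl A D) ^ A.dim ∈ spanCycles W A A.dim := by
    have h2 := KOp.map_span (lefP_mem (W := W) hA.divisor A.dim) (x := (1 : W.H A)) (j := 0)
      (Submodule.subset_span ⟨0, rfl, A.V.fundCycle, A.V.fundCycle_mem, (W.cl_fund A)⟩)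
    rw [zero_add, lefP_eq, mul_one] at h2
    exact h2
  have hpr := isProjs_base (L := L) hπ
  have hprK : ∀ i, upW L (π i) ∈ KOp (baseW W L) A A 0 := fun i => upW_mem (hK i)
  refine id_mem_retOp (W := baseW W L) (isAbelianLike_base hA.abelianLike) hpr hprK hQt ?_ ?_
  · -- degree zero
    have hc1 : ((1 : L) ⊗ₜ[W.K] ((W.tr A ((W.cl A D) ^ A.dim))⁻¹ • (W.cl A D) ^ A.dim) :
        (baseW W L).H A) ∈ spanCycles (baseW W L) A A.dim :=
      one_tmul_span (Submodule.smul_mem _ _ hc0)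
    have htr : (baseW W L).tr A ((1 : L) ⊗ₜ[W.K]
        ((W.tr A ((W.cl A D) ^ A.dim))⁻¹ • (W.cl A D) ^ A.dim) : (baseW W L).H A) = 1 := by
      have h4 : formBase L (W.tr A) ((1 : L) ⊗ₜ[W.K]
          ((W.tr A ((W.cl A D) ^ A.dim))⁻¹ • (W.cl A D) ^ A.dim)) =
          1 * algebraMap W.K L (W.tr A ((W.tr A ((W.cl A D) ^ A.dim))⁻¹ • (W.cl A D) ^ A.dim)) :=
        formBase_tmul _ _ _
      have h5 : W.tr A ((W.tr A ((W.cl A D) ^ A.dim))⁻¹ • (W.cl A D) ^ A.dim) = 1 := by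
        rw [map_smul, smul_eq_mul, inv_mul_cancel₀ htop]
      rw [h5, map_one, mul_one] at h4
      exact h4
    refine RetOp.self (B := Hi hpr hprK 0) (hQa _ ?_)
    refine ⟨1, fun _ => _, fun _ => 1, fun _ => A.dim, fun _ => hc1, fun x => ?_⟩
    rw [Finset.univ_unique, Finset.sum_singleton]
    exact projs_zero_alg hpr hc1 htr x
  · -- degree one
    by_cases hdim : A.dim = 0
    · have h1 : π 1 = 0 := by
        apply LinearMap.ext
        intro x
        have h2 := hrange x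
        rw [W.gr_eq_bot A 1 (by omega), Submodule.mem_bot] at h2
        exact h2
      have h3 : upW L (π 1) = 0 := by rw [h1, upW_zero]
      change upW L (π 1) ∈ _
      rw [h3]
      exact Submodule.zero_mem _
    · have h1 : (1 : ℕ) < A.dim + 1 := by omega
      have h2 : e ⟨1, h1⟩ = π 1 := he ⟨1, h1⟩ rfl
      obtain ⟨R, hR⟩ := (exists_isRoots (W := W) (L := L) (hsq 1)).2
      change upW L (π 1) ∈ _
      rw [← h2]
      exact piece_mem (hF ⟨1, h1⟩) hR (fun b hb => hQl ⟨1, h1⟩ R hR b hb)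

end Pool.Agent.Helper11K9.Dens
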