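import Pool.Agent.R908.TAbDefs
import Pool.Agent.H914R2.HodgeDefs
import Pool.Agent.H914R2.KDefs
import Pool.Agent.H914R2.DDefs

/-!
# Varieties over finite fields with many correspondences: definitions
-/

set_option autoImplicit false

open CategoryTheory AlgebraicGeometry Polynomial

universe u v

namespace Pool.Agent.Helper11K9.Dens

open Pool.Agent.H914 Pool.Agent.H914.VarClass Pool.Agent.H914.VarClass.Obj
  Pool.Agent.H914.WeilCohomology Pool.Agent.W534 Pool.Agent.R908

variable {k : Type u} [Field k] {𝒱 : VarClass k} {ops : CycleOps 𝒱}

/-- The complex roots of the polynomials `P i` with rational coefficients have the absolute value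
`q ^ (i / 2)`. -/
def AreWeilPolynomials (q : ℕ) (P : ℕ → ℚ[X]) : Prop :=
  ∀ i, ∀ z : ℂ, aeval z (P i) = 0 → ‖z‖ ^ 2 = (q : ℝ) ^ i

/-- The operator `f (F)` is zero on `N`. -/
def KillsOn {K : Type*} [Field K] [CharZero K] {V : Type*} [AddCommGroup V] [Module K V]
    (F : Module.End K V) (N : Submodule K V) (f : ℚ[X]) : Prop :=
  ∀ x ∈ N, aeval F (f.map (algebraMap ℚ K)) x = 0

/-- The transcendental cohomology of degree `i`: the classes in `H^i(X)` orthogonal to all algebraic
classes. -/
def transDeg (W : WeilCohomology.{u, v} ops) (X : 𝒱.Obj) (i : ℕ) : Submodule W.K (W.H X) :=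
  W.gr X i ⊓ transcendental W X

/-- The variety `X` over an algebraic closure of a finite field, with an ample divisor `D` invariant
under Frobenius, satisfies the standard conjectures B and D, and the `K`-linear endomorphisms of
the transcendental cohomology of degree `i ≤ dim X` which commute with Frobenius are given by
algebraic correspondences of degree `0` with coefficients in `K` (a part of the Tate conjecture for
`X × X`). The other two properties (the action of Frobenius on the class of `D`, and hard Lefschetz)
are known for all `X`. -/
structure IsRichOverFinite {W : WeilCohomology.{u, v} ops} {p : ℕ} (Φ : FrobSystem W p)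
    (X : 𝒱.Obj) (D : X.Cycles) : Prop where
  divisor : X.IsCyc 1 D
  rational : IsScaled (frobAll Φ X) (p ^ Φ.e X) (W.cl X D)
  lefschetz : HardLefschetz W X D
  lefschetzB : LefschetzB W X D
  homEqNum : HomEqNum W X
  tate : ∀ i ≤ X.dim, CommutantSpannedOn (frobAll Φ X) (transDeg W X i) (cycOps W X)

end Pool.Agent.Helper11K9.Dens
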