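import Mathlib

/-!
# The number of pairs of conjugate roots: definition
-/

set_option autoImplicit false

namespace Pool.Agent.Helper11K9.Dens

open Polynomial

variable {J : Type}

/-- The number of pairs of complex conjugate non-real roots of the polynomials `P j`. -/
noncomputable def pairNumber (P : J → ℚ[X]) : ℕ :=
  {z : ℂ | 0 < z.im ∧ ∃ j, aeval z (P j) = 0}.ncard

end Pool.Agent.Helper11K9.Dens
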