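import Pool.Agent.Helper11K9.Dens.RelDefs
import Pool.Agent.Helper11K9.Dens.PairDefs
import Pool.Agent.Helper11K9.Dens.GrpA

/-!
# The action of a Galois group on functions on the roots
-/

set_option autoImplicit false

namespace Pool.Agent.Helper11K9.Dens

open Polynomial

/-- The space spanned by the exotic relations. -/
def exoticSpace {J : Type} [Fintype J] (P : J → ℚ[X]) (e : J → ℕ) :
    Submodule ℚ (J → ℂ → ℚ) :=
  Submodule.span ℚ {f | ∃ r : J → ℂ → ℤ, IsExoticRelation P e r ∧ f = fun j z => (r j z : ℚ)}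

variable {J : Type} (E : IntermediateField ℚ ℂ)

/-- The Galois group acting on the complex numbers by permutations, trivially outside of `E`. -/
noncomputable def pm : Gal(E/ℚ) →* Equiv.Perm ℂ :=
  open scoped Classical in
  (Equiv.Perm.ofSubtype (p := fun z : ℂ => z ∈ E)).comp (MulAction.toPermHom Gal(E/ℚ) E)

lemma pm_apply (σ : Gal(E/ℚ)) (z : E) : pm E σ (z : ℂ) = (σ z : ℂ) := by
  classical
  have h := Equiv.Perm.ofSubtype_apply_of_mem (p := fun z : ℂ => z ∈ E)
    (MulAction.toPermHom Gal(E/ℚ) E σ) z.2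
  exact h

lemma pm_not_mem (σ : Gal(E/ℚ)) {z : ℂ} (hz : z ∉ E) : pm E σ z = z := by
  classical
  exact Equiv.Perm.ofSubtype_apply_of_not_mem (p := fun z : ℂ => z ∈ E)
    (MulAction.toPermHom Gal(E/ℚ) E σ) hz

lemma pm_inv_apply (σ : Gal(E/ℚ)) (z : E) : (pm E σ)⁻¹ (z : ℂ) = (σ⁻¹ z : E) := by
  rw [← map_inv, pm_apply]

/-- The action on functions. -/
noncomputable def fnRep (J : Type) : Representation ℚ Gal(E/ℚ) (J → ℂ → ℚ) where
  toFun σ :=
    { toFun := fun f j z => f j ((pm E σ)⁻¹ z)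
      map_add' := fun _ _ => rfl
      map_smul' := fun _ _ => rfl }
  map_one' := by
    apply LinearMap.ext
    intro f
    funext j z
    change f j ((pm E 1)⁻¹ z) = f j z
    rw [map_one, inv_one, Equiv.Perm.one_apply]
  map_mul' σ τ := by
    apply LinearMap.ext
    intro f
    funext j z
    change f j ((pm E (σ * τ))⁻¹ z) = f j ((pm E τ)⁻¹ ((pm E σ)⁻¹ z))
    rw [map_mul, mul_inv_rev, Equiv.Perm.mul_apply]

lemma fnRep_apply (σ : Gal(E/ℚ)) (f : J → ℂ → ℚ) (j : J) (z : ℂ) :
    fnRep E J σ f j z = f j ((pm E σ)⁻¹ z) := rfl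

/-- The action on a stable subspace. -/
noncomputable def subRep {V : Submodule ℚ (J → ℂ → ℚ)} (hV : ∀ σ, ∀ f ∈ V, fnRep E J σ f ∈ V) :
    Representation ℚ Gal(E/ℚ) V where
  toFun σ := (fnRep E J σ).restrict (hV σ)
  map_one' := by
    apply LinearMap.ext
    intro f
    apply Subtype.ext
    rw [LinearMap.restrict_coe_apply, map_one]
    rfl
  map_mul' σ τ := by
    apply LinearMap.ext
    intro f
    apply Subtype.ext
    rw [LinearMap.restrict_coe_apply, map_mul]
    rfl

/-- The elements which fix no nonzero function in `V`. -/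
def noInv (V : Submodule ℚ (J → ℂ → ℚ)) : Set Gal(E/ℚ) :=
  {σ | ∀ f ∈ V, fnRep E J σ f = f → f = 0}

lemma noInv_conj {V : Submodule ℚ (J → ℂ → ℚ)} (hV : ∀ σ, ∀ f ∈ V, fnRep E J σ f ∈ V)
    (σ : Gal(E/ℚ)) (hσ : σ ∈ noInv E V) (h : Gal(E/ℚ)) : h⁻¹ * σ * h ∈ noInv E V := by
  intro f hf hfix
  have h1 := hσ _ (hV h f hf) (by
    have h2 := congrArg (fnRep E J h) hfix
    rw [← Module.End.mul_apply, ← map_mul] at h2
    rw [← Module.End.mul_apply, ← map_mul]
    rw [← h2]
    congr 2
    group)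
  have h2 := congrArg (fnRep E J h⁻¹) h1
  rw [← Module.End.mul_apply, ← map_mul, inv_mul_cancel, map_one, map_zero] at h2
  exact h2

/-- The proportion of the elements without invariants. -/
lemma card_noInv [FiniteDimensional ℚ E] {V : Submodule ℚ (J → ℂ → ℚ)}
    [Module.Finite ℚ V] (hV : ∀ σ, ∀ f ∈ V, fnRep E J σ f ∈ V) (c : Gal(E/ℚ))
    (hc : ∀ f ∈ V, fnRep E J c f = -f) :
    Nat.card Gal(E/ℚ) ≤ 2 ^ Module.finrank ℚ V * Nat.card (noInv E V) := by
  classical
  have h1 := card_noFixed (subRep E hV) c (by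
    apply LinearMap.ext
    intro f
    apply Subtype.ext
    exact hc f.1 f.2)
  refine h1.trans (le_of_eq ?_)
  congr 1
  refine Nat.card_congr (Equiv.subtypeEquivRight fun σ => ?_)
  constructor
  · intro h f hf hfix
    have h2 := h ⟨f, hf⟩ (Subtype.ext hfix)
    exact congrArg Subtype.val h2
  · intro h f hfix
    apply Subtype.ext
    exact h f.1 f.2 (congrArg Subtype.val hfix)

/-- The orbit sums of a function in `V` vanish for an element without invariants. -/
lemma sum_orbit [FiniteDimensional ℚ E] {V : Submodule ℚ (J → ℂ → ℚ)}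
    (hV : ∀ σ, ∀ f ∈ V, fnRep E J σ f ∈ V) {σ : Gal(E/ℚ)} (hσ : σ ∈ noInv E V) {f : J → ℂ → ℚ}
    (hf : f ∈ V) : ∑ k ∈ Finset.range (orderOf σ), fnRep E J (σ ^ k) f = 0 := by
  apply hσ _ (Submodule.sum_mem _ (fun k _ => hV _ f hf))
  rw [map_sum]
  have h1 : ∀ k, fnRep E J σ (fnRep E J (σ ^ k) f) = fnRep E J (σ ^ (k + 1)) f := by
    intro k
    rw [← Module.End.mul_apply, ← map_mul, ← pow_succ']
  rw [Finset.sum_congr rfl (fun k _ => h1 k)]
  have h2 := Finset.sum_range_succ' (fun k => fnRep E J (σ ^ k) f) (orderOf σ)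
  have h3 := Finset.sum_range_succ (fun k => fnRep E J (σ ^ k) f) (orderOf σ)
  rw [h2, pow_orderOf_eq_one, pow_zero] at h3
  exact add_right_cancel h3

/-- The sum over a stable set of a function in `V` vanishes for an element without invariants. -/
lemma sum_stable [FiniteDimensional ℚ E] {V : Submodule ℚ (J → ℂ → ℚ)}
    (hV : ∀ σ, ∀ f ∈ V, fnRep E J σ f ∈ V) {σ : Gal(E/ℚ)} (hσ : σ ∈ noInv E V) {f : J → ℂ → ℚ}
    (hf : f ∈ V) (j : J) (O : Finset E) (hO : ∀ z ∈ O, σ z ∈ O) : ∑ z ∈ O, f j z = 0 := by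
  classical
  have hbij : ∀ k : ℕ, ∑ z ∈ O, fnRep E J (σ ^ k) f j z = ∑ z ∈ O, f j z := by
    intro k
    have hO' : ∀ z ∈ O, (σ ^ k) z ∈ O := by
      induction k with
      | zero => intro z hz; exact hz
      | succ k ih =>
        intro z hz
        rw [pow_succ']
        exact hO _ (ih z hz)
    have himg : O.image (σ ^ k) = O := by
      apply Finset.eq_of_subset_of_card_le
      · intro z hz
        obtain ⟨y, hy, rfl⟩ := Finset.mem_image.1 hz
        exact hO' y hy
      · rw [Finset.card_image_of_injective _ (σ ^ k).injective]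
    conv_lhs => rw [← himg]
    rw [Finset.sum_image (fun x _ y _ h => (σ ^ k).injective h)]
    apply Finset.sum_congr rfl
    intro z _
    rw [fnRep_apply, pm_inv_apply]
    congr 2
    exact (σ ^ k).symm_apply_apply z
  have h1 := sum_orbit E hV hσ hf
  have h2 : ∑ z ∈ O, (∑ k ∈ Finset.range (orderOf σ), fnRep E J (σ ^ k) f) j z = 0 := by
    rw [h1]
    exact Finset.sum_const_zero
  simp only [Finset.sum_apply] at h2
  rw [Finset.sum_comm, Finset.sum_congr rfl (fun k _ => hbij k), Finset.sum_const,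
    Finset.card_range, smul_eq_zero] at h2
  rcases h2 with h2 | h2
  · exact absurd h2 (orderOf_pos σ).ne'
  · exact h2

end Pool.Agent.Helper11K9.Dens
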