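import Pool.Agent.Helper11K9.Dens.RelA

/-!
# The space of exotic relations is stable under the Galois group
-/

set_option autoImplicit false
set_option linter.unusedSectionVars false

namespace Pool.Agent.Helper11K9.Dens

open Polynomial

/-- The roots of `P j` are nonzero numbers with the square `w j` of the absolute value. -/
structure IsWeilFamily {J : Type} (P : J → ℚ[X]) (w : J → ℕ) : Prop where
  ne : ∀ j, P j ≠ 0
  pos : ∀ j, 0 < w j
  abs : ∀ j (z : ℂ), aeval z (P j) = 0 → ‖z‖ ^ 2 = (w j : ℝ)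

variable {J : Type} [Fintype J] {P : J → ℚ[X]} {e w : J → ℕ} (hW : IsWeilFamily P w)

section Basic

include hW

lemma IsWeilFamily.ne_zero {j : J} {z : ℂ} (hz : aeval z (P j) = 0) : z ≠ 0 := by
  rintro rfl
  have h1 := hW.abs j 0 hz
  have h2 := hW.pos j
  rw [norm_zero] at h1
  have h3 : (w j : ℝ) = 0 := by rw [← h1]; norm_num
  rw [Nat.cast_eq_zero] at h3
  omega

lemma IsWeilFamily.conj_eq {j : J} {z : ℂ} (hz : aeval z (P j) = 0) :
    starRingEnd ℂ z = (w j : ℂ) / z := by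
  rw [eq_div_iff (hW.ne_zero hz), mul_comm, Complex.mul_conj, Complex.normSq_eq_norm_sq,
    hW.abs j z hz]
  norm_cast

end Basic

lemma aeval_conj' (f : ℚ[X]) (z : ℂ) : aeval (starRingEnd ℂ z) f = starRingEnd ℂ (aeval z f) := by
  rw [aeval_def, aeval_def, hom_eval₂]
  congr 1
  exact Subsingleton.elim _ _

lemma conj_root {f : ℚ[X]} {z : ℂ} : aeval (starRingEnd ℂ z) f = 0 ↔ aeval z f = 0 := by
  rw [aeval_conj', map_eq_zero]

variable (E : IntermediateField ℚ ℂ)

lemma coe_aeval (f : ℚ[X]) (z : E) : aeval (z : ℂ) f = ((aeval z f : E) : ℂ) := by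
  have h := aeval_algebraMap_apply ℂ z f
  exact h

lemma root_coe {f : ℚ[X]} {z : E} : aeval (z : ℂ) f = 0 ↔ aeval z f = 0 := by
  rw [coe_aeval]
  exact_mod_cast Iff.rfl

lemma root_gal (σ : Gal(E/ℚ)) {f : ℚ[X]} {z : E} : aeval (σ z) f = 0 ↔ aeval z f = 0 := by
  have h := aeval_algHom_apply (σ : E →ₐ[ℚ] E) z f
  change aeval (σ z) f = σ (aeval z f) at h
  rw [h]
  exact map_eq_zero_iff _ σ.injective

/-- The roots of `P j` in `E`. -/
noncomputable def rootsE (f : ℚ[X]) : Finset E := (f.aroots E).toFinset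

lemma mem_rootsE {f : ℚ[X]} (hf : f ≠ 0) {z : E} : z ∈ rootsE E f ↔ aeval z f = 0 := by
  rw [rootsE, Multiset.mem_toFinset, mem_aroots]
  exact ⟨fun h => h.2, fun h => ⟨hf, h⟩⟩

variable (hE : ∀ j (z : ℂ), aeval z (P j) = 0 → z ∈ E)

section

variable {E}

include hE

lemma prod_rootsE {M : Type*} [CommMonoid M] {j : J} (hj : P j ≠ 0) (F : ℂ → M) :
    ∏ z ∈ ((P j).aroots ℂ).toFinset, F z = ∏ z ∈ rootsE E (P j), F (z : ℂ) := by
  classical
  symm
  refine Finset.prod_bij (fun (z : E) _ => (z : ℂ)) ?_ ?_ ?_ ?_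
  · intro z hz
    rw [mem_rootsE E hj] at hz
    rw [Multiset.mem_toFinset, mem_aroots]
    exact ⟨hj, (root_coe E).2 hz⟩
  · intro z _ z' _ h
    exact Subtype.ext h
  · intro z hz
    rw [Multiset.mem_toFinset, mem_aroots] at hz
    refine ⟨⟨z, hE j z hz.2⟩, ?_, rfl⟩
    rw [mem_rootsE E hj]
    exact (root_coe E (z := ⟨z, hE j z hz.2⟩)).1 hz.2
  · intro z _
    rfl

include hW

lemma conj_gal (σ : Gal(E/ℚ)) {j : J} {z : E} (hz : aeval z (P j) = 0) :
    starRingEnd ℂ ((σ z : E) : ℂ) = (w j : ℂ) / (σ z : E) :=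
  hW.conj_eq ((root_coe E).2 ((root_gal E σ).2 hz))

lemma pm_conj (σ : Gal(E/ℚ)) {j : J} {z : ℂ} (hz : aeval z (P j) = 0) :
    (pm E σ)⁻¹ (starRingEnd ℂ z) = starRingEnd ℂ ((pm E σ)⁻¹ z) := by
  obtain ⟨z', rfl⟩ : ∃ z' : E, (z' : ℂ) = z := ⟨⟨z, hE j z hz⟩, rfl⟩
  have hz' : aeval z' (P j) = 0 := (root_coe E).1 hz
  obtain ⟨y, hy⟩ : ∃ y : E, (y : ℂ) = starRingEnd ℂ (z' : ℂ) :=
    ⟨⟨_, hE j _ (conj_root.2 hz)⟩, rfl⟩
  have h1 : z' ≠ 0 := by
    intro h0
    exact hW.ne_zero hz (by rw [h0]; rfl)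
  have h2 : y = (w j : E) / z' := by
    apply Subtype.ext
    rw [hy, hW.conj_eq hz]
    push_cast
    rfl
  rw [← hy, pm_inv_apply, pm_inv_apply, conj_gal hW hE σ⁻¹ hz', h2, map_div₀, map_natCast]
  push_cast
  rfl

/-- The Galois group acts on the exotic relations. -/
lemma exotic_gal (σ : Gal(E/ℚ)) {r : J → ℂ → ℤ} (hr : IsExoticRelation P e r) :
    IsExoticRelation P e (fun j z => r j ((pm E σ)⁻¹ z)) := by
  classical
  obtain ⟨h1, h2, N, hN, heN, h3⟩ := hr
  have hroot : ∀ j (z : ℂ), aeval z (P j) ≠ 0 → aeval ((pm E σ)⁻¹ z) (P j) ≠ 0 := by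
    intro j z hz
    by_cases hzE : z ∈ E
    · obtain ⟨z', rfl⟩ : ∃ z' : E, (z' : ℂ) = z := ⟨⟨z, hzE⟩, rfl⟩
      rw [pm_inv_apply, Ne, root_coe, root_gal, ← root_coe E]
      exact hz
    · rw [← map_inv, pm_not_mem E _ hzE]
      exact hz
  refine ⟨fun j z hz => h1 j _ (hroot j z hz), fun j z => ?_, N, hN, heN, ?_⟩
  · beta_reduce
    by_cases hz : aeval z (P j) = 0
    · rw [pm_conj hW hE σ hz, h2]
    · rw [h1 j _ (hroot j z hz), h1 j _ (hroot j _ (fun h => hz (conj_root.1 h))), neg_zero]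
  · have key : ∀ r' : J → ℂ → ℤ, (∏ j, ∏ z ∈ ((P j).aroots ℂ).toFinset,
        z ^ (((N / e j : ℕ) : ℤ) * r' j z)) =
        ((∏ j, ∏ z ∈ rootsE E (P j), z ^ (((N / e j : ℕ) : ℤ) * r' j z) : E) : ℂ) := by
      intro r'
      rw [← IntermediateField.algebraMap_apply, map_prod]
      apply Finset.prod_congr rfl
      intro j _
      rw [map_prod, prod_rootsE hE (hW.ne j)]
      apply Finset.prod_congr rfl
      intro z _
      rw [map_zpow₀]
      rfl
    rw [key] at h3 ⊢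
    have h4 : (∏ j, ∏ z ∈ rootsE E (P j), z ^ (((N / e j : ℕ) : ℤ) * r j z) : E) = 1 := by
      apply Subtype.ext
      exact h3
    have h5 : (∏ j, ∏ z ∈ rootsE E (P j), z ^ (((N / e j : ℕ) : ℤ) *
        r j ((pm E σ)⁻¹ (z : ℂ))) : E) = 1 := by
      rw [← map_one σ, ← h4, map_prod]
      apply Finset.prod_congr rfl
      intro j _
      rw [map_prod]
      symm
      refine Finset.prod_bij (fun (z : E) _ => σ z) ?_ ?_ ?_ ?_
      · intro z hz
        rw [mem_rootsE E (hW.ne j)] at hz ⊢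
        exact (root_gal E σ).2 hz
      · intro z _ z' _ h
        exact σ.injective h
      · intro z hz
        rw [mem_rootsE E (hW.ne j)] at hz
        refine ⟨σ.symm z, ?_, σ.apply_symm_apply z⟩
        rw [mem_rootsE E (hW.ne j)]
        exact (root_gal E σ.symm).2 hz
      · intro z _
        rw [map_zpow₀, pm_inv_apply]
        congr 3
        exact congrArg Subtype.val (σ.symm_apply_apply z).symm
    rw [h5]
    rfl

lemma exotic_stable (σ : Gal(E/ℚ)) : ∀ f ∈ exoticSpace P e, fnRep E J σ f ∈ exoticSpace P e := by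
  intro f hf
  induction hf using Submodule.span_induction with
  | mem f hf =>
    obtain ⟨r, hr, rfl⟩ := hf
    exact Submodule.subset_span ⟨_, exotic_gal hW hE σ hr, rfl⟩
  | zero => rw [map_zero]; exact Submodule.zero_mem _
  | add f g _ _ hf hg => rw [map_add]; exact Submodule.add_mem _ hf hg
  | smul c f _ hf => rw [map_smul]; exact Submodule.smul_mem _ _ hf

end

/-- The odd functions supported on the roots. -/
def oddSpace (P : J → ℚ[X]) : Submodule ℚ (J → ℂ → ℚ) where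
  carrier := {f | (∀ j z, aeval z (P j) ≠ 0 → f j z = 0) ∧
    ∀ j z, f j (starRingEnd ℂ z) = - f j z}
  zero_mem' := ⟨fun _ _ _ => rfl, fun _ _ => by simp⟩
  add_mem' := by
    rintro f g ⟨h1, h2⟩ ⟨h3, h4⟩
    refine ⟨fun j z hz => ?_, fun j z => ?_⟩
    · change f j z + g j z = 0
      rw [h1 j z hz, h3 j z hz, add_zero]
    · change f j _ + g j _ = -(f j z + g j z)
      rw [h2, h4]
      ring
  smul_mem' := by
    rintro c f ⟨h1, h2⟩
    refine ⟨fun j z hz => ?_, fun j z => ?_⟩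
    · change c * f j z = 0
      rw [h1 j z hz, mul_zero]
    · change c * f j _ = -(c * f j z)
      rw [h2]
      ring

lemma exotic_le_odd : exoticSpace P e ≤ oddSpace P := by
  refine Submodule.span_le.2 ?_
  rintro f ⟨r, ⟨h1, h2, -⟩, rfl⟩
  refine ⟨fun j z hz => ?_, fun j z => ?_⟩
  · beta_reduce
    rw [h1 j z hz, Int.cast_zero]
  · beta_reduce
    rw [h2, Int.cast_neg]

include hW in
lemma finite_odd : Module.Finite ℚ (oddSpace P) := by
  classical
  let F : oddSpace P →ₗ[ℚ] ((Σ j, {z : ℂ // z ∈ ((P j).aroots ℂ).toFinset}) → ℚ) :=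
    { toFun := fun f x => f.1 x.1 x.2.1
      map_add' := fun _ _ => rfl
      map_smul' := fun _ _ => rfl }
  refine Module.Finite.of_injective F ?_
  rw [← LinearMap.ker_eq_bot, eq_bot_iff]
  rintro ⟨f, hf⟩ h0
  rw [Submodule.mem_bot]
  apply Subtype.ext
  funext j z
  by_cases hz : aeval z (P j) = 0
  · have h1 := congrFun (LinearMap.mem_ker.1 h0) ⟨j, z, by
      rw [Multiset.mem_toFinset, mem_aroots]
      exact ⟨hW.ne j, hz⟩⟩
    exact h1
  · exact hf.1 j z hz

include hW in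
lemma finite_exotic : Module.Finite ℚ (exoticSpace P e) := by
  have := finite_odd hW
  exact Submodule.finiteDimensional_of_le exotic_le_odd

/-- Complex conjugation on a normal field. -/
lemma exists_conj [Normal ℚ E] : ∃ c : Gal(E/ℚ), ∀ z : E, ((c z : E) : ℂ) = starRingEnd ℂ (z : ℂ) := by
  refine ⟨(Complex.conjAe.restrictScalars ℚ).restrictNormal E, fun z => ?_⟩
  exact AlgEquiv.restrictNormal_commutes (Complex.conjAe.restrictScalars ℚ) E z

include hE in
lemma fnRep_conj {c : Gal(E/ℚ)} (hc : ∀ z : E, ((c z : E) : ℂ) = starRingEnd ℂ (z : ℂ))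
    {f : J → ℂ → ℚ} (hf : f ∈ oddSpace P) : fnRep E J c f = -f := by
  have hcc : ∀ z : E, c (c z) = z := by
    intro z
    apply Subtype.ext
    rw [hc, hc]
    exact Complex.conj_conj _
  funext j z
  rw [fnRep_apply]
  change _ = - f j z
  by_cases hz : aeval z (P j) = 0
  · obtain ⟨z', rfl⟩ : ∃ z' : E, (z' : ℂ) = z := ⟨⟨z, hE j z hz⟩, rfl⟩
    have h1 : (c⁻¹ z' : E) = c z' := by
      change c.symm z' = c z'
      rw [AlgEquiv.symm_apply_eq, hcc]
    rw [pm_inv_apply, h1, hc, hf.2]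
  · have h1 : aeval ((pm E c)⁻¹ z) (P j) ≠ 0 := by
      by_cases hzE : z ∈ E
      · obtain ⟨z', rfl⟩ : ∃ z' : E, (z' : ℂ) = z := ⟨⟨z, hzE⟩, rfl⟩
        rw [pm_inv_apply, Ne, root_coe, root_gal, ← root_coe E]
        exact hz
      · rw [← map_inv, pm_not_mem E _ hzE]
        exact hz
    rw [hf.1 j z hz, hf.1 j _ h1, neg_zero]

end Pool.Agent.Helper11K9.Dens
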