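import Pool.Agent.Helper11K9.Dens.RelB

/-!
# Multiplicative relations are balanced if a Frobenius element has no invariants
-/

set_option autoImplicit false
set_option linter.unusedSectionVars false

namespace Pool.Agent.Helper11K9.Dens

open Polynomial

variable {J : Type} [Fintype J] [DecidableEq J] {P : J → ℚ[X]} {e w : J → ℕ}
  (hW : IsWeilFamily P w) (E : IntermediateField ℚ ℂ)
  (hE : ∀ j (z : ℂ), aeval z (P j) = 0 → z ∈ E)

lemma count_map_eq {X : Type*} [DecidableEq X] [DecidableEq (J × E)] (g : J × E → J × X) (hg : ∀ y, (g y).1 = y.1)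
    (j : J) (f : X) (l : List (J × E)) (hl : ∀ y ∈ l, y.2 ∈ rootsE E (P y.1)) :
    (l.map g).count (j, f) =
      ∑ z ∈ (rootsE E (P j)).filter (fun z => g (j, z) = (j, f)), l.count (j, z) := by
  induction l with
  | nil => simp
  | cons y l ih =>
    rw [List.map_cons, List.count_cons, ih (fun y hy => hl y (List.mem_cons_of_mem _ hy))]
    have h1 : ∀ z, (y :: l).count (j, z) = l.count (j, z) + if y = (j, z) then 1 else 0 := by
      intro z
      rw [List.count_cons]
      congr 1
      by_cases h : y = (j, z) <;> simp [h]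
    rw [Finset.sum_congr rfl (fun z _ => h1 z), Finset.sum_add_distrib]
    congr 1
    by_cases h : g y = (j, f)
    · have hj : y.1 = j := by rw [← hg y, h]
      have hy : y = (j, y.2) := Prod.ext hj rfl
      have h2 : y.2 ∈ (rootsE E (P j)).filter (fun z => g (j, z) = (j, f)) := by
        rw [Finset.mem_filter, ← hy]
        refine ⟨?_, h⟩
        have := hl y List.mem_cons_self
        rwa [hj] at this
      rw [Finset.sum_eq_single y.2]
      · simp [h, ← hy]
      · intro z _ hz
        rw [if_neg]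
        intro h3
        apply hz
        rw [h3]
      · intro h3
        exact absurd h2 h3
    · rw [Finset.sum_eq_zero]
      · simp [h]
      · intro z hz
        rw [if_neg]
        rintro rfl
        exact h (Finset.mem_filter.1 hz).2

lemma prod_map_pow' {X M : Type*} [CommMonoid M] (l : List X) (f : X → M) (S : ℕ) :
    (l.map (fun x => f x ^ S)).prod = (l.map f).prod ^ S := by
  induction l with
  | nil => simp
  | cons x l ih => rw [List.map_cons, List.prod_cons, ih, List.map_cons, List.prod_cons, mul_pow]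

lemma prod_list_eq [DecidableEq (J × E)] (k : J → ℕ) (l : List (J × E)) (hl : ∀ y ∈ l, y.2 ∈ rootsE E (P y.1)) :
    (l.map (fun y => y.2 ^ k y.1)).prod =
      ∏ j, ∏ z ∈ rootsE E (P j), z ^ (k j * l.count (j, z)) := by
  induction l with
  | nil => simp
  | cons y l ih =>
    rw [List.map_cons, List.prod_cons, ih (fun y hy => hl y (List.mem_cons_of_mem _ hy))]
    have h1 : ∀ j, ∀ z, z ^ (k j * (y :: l).count (j, z)) =
        (if y = (j, z) then z ^ k j else 1) * z ^ (k j * l.count (j, z)) := by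
      intro j z
      rw [List.count_cons]
      by_cases h : y = (j, z)
      · simp only [h, beq_self_eq_true, if_true]
        rw [mul_add, mul_one, pow_add, mul_comm]
      · have h2 : (y == (j, z)) = false := by simpa using h
        simp only [h2, if_neg h, one_mul]
        simp
    simp_rw [h1, Finset.prod_mul_distrib]
    congr 1
    rw [Finset.prod_eq_single y.1, Finset.prod_eq_single y.2]
    · simp
    · intro z _ hz
      rw [if_neg]
      intro h
      apply hz
      rw [h]
    · intro h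
      exact absurd (hl y List.mem_cons_self) h
    · intro j _ hj
      apply Finset.prod_eq_one
      intro z _
      rw [if_neg]
      intro h
      apply hj
      rw [h]
    · intro h
      exact absurd (Finset.mem_univ _) h

include hE in
lemma splits_E (j : J) : ((P j).map (algebraMap ℚ E)).Splits := by
  apply IntermediateField.splits_of_splits
  · exact IsAlgClosed.splits _
  · intro z hz
    exact hE j z (mem_rootSet.1 hz).2

variable {E}

/-- The restriction of functions to a subfamily. -/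
def resL {J₀ J : Type} (ι : J₀ → J) : (J → ℂ → ℚ) →ₗ[ℚ] (J₀ → ℂ → ℚ) where
  toFun f j := f (ι j)
  map_add' _ _ := rfl
  map_smul' _ _ := rfl

/-- The restrictions of the exotic relations to a subfamily. -/
def relSpace {J₀ : Type} (ι : J₀ → J) (P : J → ℚ[X]) (e : J → ℕ) : Submodule ℚ (J₀ → ℂ → ℚ) :=
  (exoticSpace P e).map (resL ι)

include hW hE in
lemma rel_stable {J₀ : Type} (ι : J₀ → J) (σ : Gal(E/ℚ)) :
    ∀ f ∈ relSpace ι P e, fnRep E J₀ σ f ∈ relSpace ι P e := by
  rintro _ ⟨f, hf, rfl⟩
  exact ⟨_, exotic_stable hW hE σ f hf, rfl⟩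

include hW in
lemma finite_rel {J₀ : Type} (ι : J₀ → J) : Module.Finite ℚ (relSpace ι P e) := by
  have := finite_exotic hW (e := e)
  exact inferInstanceAs (Module.Finite ℚ ((exoticSpace P e).map (resL ι)))

include hE in
lemma rel_conj {J₀ : Type} (ι : J₀ → J) {c : Gal(E/ℚ)}
    (hc : ∀ z : E, ((c z : E) : ℂ) = starRingEnd ℂ (z : ℂ)) :
    ∀ f ∈ relSpace ι P e, fnRep E J₀ c f = -f := by
  rintro _ ⟨f, hf, rfl⟩
  have h1 := congrArg (resL ι) (fnRep_conj E hE hc (exotic_le_odd hf))
  rw [map_neg] at h1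
  exact h1

include hW hE in
/-- **Balanced relations.** -/
theorem count_of_noInv {J₀ : Type} (ι : J₀ → J) [FiniteDimensional ℚ E] [Normal ℚ E]
    (he : ∀ j, 0 < e j)
    {K L' : Type*} [Field K] [Field L'] [CharZero L'] [Algebra K L'] (τ : E →+* L') {p : ℕ}
    {σ : Gal(E/ℚ)}
    (hσ : ∀ j, ∀ z : E, aeval z (P (ι j)) = 0 → minpoly K (τ (σ z)) = minpoly K (τ z))
    (hnI : σ ∈ noInv E (relSpace ι P e)) (l : List (J × L'))
    (hl : ∀ x ∈ l, aeval x.2 (P x.1) = 0)
    (hrel : ∃ N M : ℕ, 0 < N ∧ (∀ x ∈ l, e x.1 ∣ N) ∧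
      (l.map (fun x => x.2 ^ (N / e x.1))).prod = (p : L') ^ M)
    (j : J₀) (f : K[X]) (g : J × K[X] → Bool) (hg : ∀ y, g y = true ↔ y = (ι j, f)) :
    (l.map (fun x => (x.1, minpoly K x.2))).countP g =
      (l.map (fun x => (x.1, minpoly K ((w x.1 : L') / x.2)))).countP g := by
  classical
  obtain rfl : g = (fun y => y == (ι j, f)) := by
    funext y
    rw [Bool.eq_iff_iff, hg, beq_iff_eq]
  obtain ⟨c, hc⟩ := exists_conj E
  have hcc : ∀ z : E, c (c z) = z := by
    intro z
    apply Subtype.ext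
    rw [hc, hc]
    exact Complex.conj_conj _
  -- descend the list
  obtain ⟨l0, hl0, rfl⟩ : ∃ l0 : List (J × E), (∀ y ∈ l0, y.2 ∈ rootsE E (P y.1)) ∧
      l0.map (fun y => (y.1, τ y.2)) = l := by
    clear hrel
    induction l with
    | nil => exact ⟨[], fun y hy => absurd hy List.not_mem_nil, rfl⟩
    | cons x l ih =>
      obtain ⟨l0, h1, h2⟩ := ih (fun y hy => hl y (List.mem_cons_of_mem _ hy))
      have h3 : x.2 ∈ (P x.1).rootSet L' := by
        rw [mem_rootSet]
        exact ⟨hW.ne x.1, hl x List.mem_cons_self⟩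
      rw [← (splits_E E hE x.1).image_rootSet (RingHom.toRatAlgHom τ)] at h3
      obtain ⟨z, hz, hzx⟩ := h3
      refine ⟨(x.1, z) :: l0, ?_, ?_⟩
      · intro y hy
        rcases List.mem_cons.1 hy with rfl | hy
        · exact (mem_rootsE E (hW.ne x.1)).2 (mem_rootSet.1 hz).2
        · exact h1 y hy
      · rw [List.map_cons, h2]
        congr 1
        exact Prod.ext rfl hzx
  obtain ⟨N, M, hN, heN, hprod⟩ := hrel
  have heN' : ∀ y ∈ l0, e y.1 ∣ N := fun y hy => heN _ (List.mem_map_of_mem hy)
  set S : ℕ := ∏ j, e j with hS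
  have hSpos : 0 < S := Finset.prod_pos (fun j _ => he j)
  have heS : ∀ j, e j ∣ S := fun j => Finset.dvd_prod_of_mem _ (Finset.mem_univ j)
  have hE1 : (l0.map (fun y => y.2 ^ (N * S / e y.1))).prod = (p : E) ^ (M * S) := by
    have h1 : (l0.map (fun y => y.2 ^ (N * S / e y.1))).prod =
        (l0.map (fun y => y.2 ^ (N / e y.1))).prod ^ S := by
      rw [← prod_map_pow']
      apply congrArg List.prod
      apply List.map_congr_left
      intro y hy
      rw [← pow_mul, Nat.div_mul_right_comm (heN' y hy)]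
    rw [h1, pow_mul]
    congr 1
    apply τ.injective
    rw [map_pow, map_natCast, ← hprod, map_list_prod, List.map_map, List.map_map]
    congr 1
    apply List.map_congr_left
    intro y _
    simp
  set n : J → E → ℕ := fun j z => l0.count (j, z) with hn
  have hn0 : ∀ j z, aeval z (P j) ≠ 0 → n j z = 0 := by
    intro j z hz
    rw [hn]
    beta_reduce
    rw [List.count_eq_zero]
    intro h
    exact hz ((mem_rootsE E (hW.ne j)).1 (hl0 _ h))
  have hE2 : (∏ j, ∏ z ∈ rootsE E (P j), z ^ ((N * S / e j) * n j z) : E) = (p : E) ^ (M * S) := by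
    rw [← hE1, prod_list_eq E (fun j => N * S / e j) l0 hl0]
  have hE3 : (∏ j, ∏ z ∈ rootsE E (P j), z ^ ((N * S / e j) * n j (c z)) : E) =
      (p : E) ^ (M * S) := by
    have h1 := congrArg c hE2
    rw [map_pow, map_natCast, map_prod] at h1
    rw [← h1]
    apply Finset.prod_congr rfl
    intro j _
    rw [map_prod]
    symm
    refine Finset.prod_bij (fun (z : E) _ => c z) ?_ ?_ ?_ ?_
    · intro z hz
      rw [mem_rootsE E (hW.ne j)] at hz ⊢
      exact (root_gal E c).2 hz
    · intro z _ z' _ h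
      exact c.injective h
    · intro z hz
      rw [mem_rootsE E (hW.ne j)] at hz
      refine ⟨c z, ?_, hcc z⟩
      rw [mem_rootsE E (hW.ne j)]
      exact (root_gal E c).2 hz
    · intro z _
      rw [map_pow, hcc]
  -- the exotic relation
  set r : J → ℂ → ℤ := fun j z => if h : z ∈ E then (n j ⟨z, h⟩ : ℤ) - n j (c ⟨z, h⟩) else 0
    with hr
  have hrE : ∀ j (z : E), r j (z : ℂ) = (n j z : ℤ) - n j (c z) := by
    intro j z
    rw [hr]
    beta_reduce
    rw [dif_pos z.2]
  have hz0 : ∀ j, ∀ z ∈ rootsE E (P j), z ≠ 0 := by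
    intro j z hz h0
    rw [mem_rootsE E (hW.ne j)] at hz
    exact hW.ne_zero ((root_coe E).2 hz) (by rw [h0]; rfl)
  have hexo : IsExoticRelation P e r := by
    refine ⟨?_, ?_, N * S, Nat.mul_pos hN hSpos, fun j => (heS j).mul_left N, ?_⟩
    · intro j z hz
      by_cases hzE : z ∈ E
      · obtain ⟨z', rfl⟩ : ∃ z' : E, (z' : ℂ) = z := ⟨⟨z, hzE⟩, rfl⟩
        rw [hrE, hn0 j z' (fun h => hz ((root_coe E).2 h)),
          hn0 j (c z') (fun h => hz ((root_coe E).2 ((root_gal E c).1 h)))]
        rfl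
      · rw [hr]
        beta_reduce
        rw [dif_neg hzE]
    · intro j z
      by_cases hzE : z ∈ E
      · obtain ⟨z', rfl⟩ : ∃ z' : E, (z' : ℂ) = z := ⟨⟨z, hzE⟩, rfl⟩
        rw [← hc z', hrE, hrE, hcc]
        ring
      · have h1 : starRingEnd ℂ z ∉ E := by
          intro h
          apply hzE
          have h2 := hc ⟨_, h⟩
          have h3 : ((c ⟨_, h⟩ : E) : ℂ) = z := by rw [h2]; exact Complex.conj_conj z
          rw [← h3]
          exact (c ⟨_, h⟩).2
        rw [hr]
        beta_reduce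
        rw [dif_neg hzE, dif_neg h1, neg_zero]
    · have h1 : (∏ j, ∏ z ∈ ((P j).aroots ℂ).toFinset, z ^ (((N * S / e j : ℕ) : ℤ) * r j z)) =
        ((∏ j, ∏ z ∈ rootsE E (P j), z ^ (((N * S / e j : ℕ) : ℤ) * r j z) : E) : ℂ) := by
        rw [← IntermediateField.algebraMap_apply, map_prod]
        apply Finset.prod_congr rfl
        intro j _
        rw [map_prod, prod_rootsE hE (hW.ne j)]
        apply Finset.prod_congr rfl
        intro z _
        rw [map_zpow₀]
        rfl
      rw [h1]
      have h2 : (∏ j, ∏ z ∈ rootsE E (P j), z ^ (((N * S / e j : ℕ) : ℤ) * r j z) : E) =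
          (∏ j, ∏ z ∈ rootsE E (P j), z ^ ((N * S / e j) * n j z) : E) /
          (∏ j, ∏ z ∈ rootsE E (P j), z ^ ((N * S / e j) * n j (c z)) : E) := by
        rw [← Finset.prod_div_distrib]
        apply Finset.prod_congr rfl
        intro j _
        rw [← Finset.prod_div_distrib]
        apply Finset.prod_congr rfl
        intro z hz
        rw [hrE, mul_sub, zpow_sub₀ (hz0 j z hz)]
        norm_cast
      have h3 : (p : E) ^ (M * S) ≠ 0 := by
        rw [← hE2]
        refine Finset.prod_ne_zero_iff.2 (fun j _ => Finset.prod_ne_zero_iff.2 (fun z hz => ?_))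
        exact pow_ne_zero _ (hz0 j z hz)
      rw [h2, hE2, hE3, div_self h3]
      rfl
  have hmem : (fun j z => (r (ι j) z : ℚ)) ∈ relSpace ι P e :=
    ⟨_, Submodule.subset_span ⟨r, hexo, rfl⟩, rfl⟩
  rw [List.map_map, List.map_map]
  obtain ⟨j₀, hj₀⟩ : ∃ j₀, j₀ = j := ⟨j, rfl⟩
  rw [← hj₀]
  obtain ⟨j, hj⟩ : ∃ j, j = ι j₀ := ⟨_, rfl⟩
  rw [← hj]
  set O := (rootsE E (P j)).filter (fun z => minpoly K (τ z) = f) with hO
  have hcount1 : (l0.map (fun y : J × E => (y.1, minpoly K (τ y.2)))).count (j, f) =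
      ∑ z ∈ O, n j z := by
    rw [count_map_eq E (fun y : J × E => (y.1, minpoly K (τ y.2))) (fun y => rfl) j f l0 hl0]
    apply Finset.sum_congr _ (fun z _ => rfl)
    rw [hO]
    apply Finset.filter_congr
    intro z _
    simp
  have hcount2 : (l0.map (fun y : J × E => (y.1, minpoly K ((w y.1 : L') / τ y.2)))).count (j, f) =
      ∑ z ∈ O, n j (c z) := by
    rw [count_map_eq E (fun y : J × E => (y.1, minpoly K ((w y.1 : L') / τ y.2)))
      (fun y => rfl) j f l0 hl0]
    symm
    have hkey : ∀ z ∈ rootsE E (P j), (w j : L') / τ z = τ (c z) := by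
      intro z hz
      rw [← map_natCast τ, ← map_div₀]
      congr 1
      apply Subtype.ext
      rw [mem_rootsE E (hW.ne j)] at hz
      rw [hc, hW.conj_eq ((root_coe E).2 hz)]
      push_cast
      rfl
    refine Finset.sum_bij (fun (z : E) _ => c z) ?_ ?_ ?_ ?_
    · intro z hz
      rw [hO, Finset.mem_filter] at hz
      have h1 : c z ∈ rootsE E (P j) := by
        have h2 := hz.1
        rw [mem_rootsE E (hW.ne j)] at h2 ⊢
        exact (root_gal E c).2 h2
      rw [Finset.mem_filter]
      refine ⟨h1, ?_⟩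
      rw [hkey _ h1, hcc, hz.2]
    · intro z _ z' _ h
      exact c.injective h
    · intro z hz
      rw [Finset.mem_filter] at hz
      refine ⟨c z, ?_, hcc z⟩
      rw [hO, Finset.mem_filter]
      have h2 := hz.1
      refine ⟨?_, ?_⟩
      · rw [mem_rootsE E (hW.ne j)] at h2 ⊢
        exact (root_gal E c).2 h2
      · have h3 := hz.2
        rw [hkey _ h2] at h3
        exact congrArg Prod.snd h3
    · intro z _
      rfl
  have hsum : ∑ z ∈ O, ((fun j z => (r (ι j) z : ℚ)) : J₀ → ℂ → ℚ) j₀ z = 0 := by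
    refine sum_stable E (J := J₀) (rel_stable hW hE ι) hnI hmem j₀ O ?_
    intro z hz
    rw [hO, Finset.mem_filter] at hz ⊢
    have h1 := hz.1
    rw [mem_rootsE E (hW.ne j)] at h1
    refine ⟨(mem_rootsE E (hW.ne j)).2 ((root_gal E σ).2 h1), ?_⟩
    rw [hσ j₀ z (hj ▸ h1), hz.2]
  have hfin : (∑ z ∈ O, (n j z : ℤ)) = ∑ z ∈ O, (n j (c z) : ℤ) := by
    have h1 : ((∑ z ∈ O, r j z : ℤ) : ℚ) = 0 := by
      rw [← hsum, hj]
      push_cast
      rfl
    have h2 : (∑ z ∈ O, r j z : ℤ) = 0 := by exact_mod_cast h1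
    rw [← sub_eq_zero, ← Finset.sum_sub_distrib, ← h2]
    apply Finset.sum_congr rfl
    intro z _
    rw [hrE]
  have hfin' : ∑ z ∈ O, n j z = ∑ z ∈ O, n j (c z) := by exact_mod_cast hfin
  have h1 := hcount1.trans (hfin'.trans hcount2.symm)
  exact h1

end Pool.Agent.Helper11K9.Dens
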