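import Pool.Agent.Helper11K9.Dens.RelC
import Pool.Agent.Helper11K9.Dens.Cheb
import Pool.Agent.Helper11K9.Dens.Loc2

/-!
# Frobenius elements for which all the conjugacy classes are self-dual, and the densities
-/

set_option autoImplicit false
set_option linter.unusedSectionVars false

namespace Pool.Agent.Helper11K9.Dens

open Polynomial NumberField Pool.Agent.W401.Cheb

variable {J : Type} [Fintype J] {P : J → ℚ[X]} {e w : J → ℕ}

/-- The odd functions supported on the union of the sets of roots. -/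
def oddU (P : J → ℚ[X]) : Submodule ℚ (Unit → ℂ → ℚ) where
  carrier := {f | (∀ z, (∀ j, aeval z (P j) ≠ 0) → f () z = 0) ∧
    ∀ z, f () (starRingEnd ℂ z) = - f () z}
  zero_mem' := ⟨fun _ _ => rfl, fun _ => by simp⟩
  add_mem' := by
    rintro f g ⟨h1, h2⟩ ⟨h3, h4⟩
    refine ⟨fun z hz => ?_, fun z => ?_⟩
    · change f () z + g () z = 0
      rw [h1 z hz, h3 z hz, add_zero]
    · change f () _ + g () _ = -(f () z + g () z)
      rw [h2, h4]
      ring
  smul_mem' := by
    rintro c f ⟨h1, h2⟩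
    refine ⟨fun z hz => ?_, fun z => ?_⟩
    · change c * f () z = 0
      rw [h1 z hz, mul_zero]
    · change c * f () _ = -(c * f () z)
      rw [h2]
      ring

variable (hW : IsWeilFamily P w)

include hW in
lemma finite_pairs : {z : ℂ | 0 < z.im ∧ ∃ j, aeval z (P j) = 0}.Finite := by
  classical
  refine (Set.finite_iUnion (fun j => ((P j).rootSet_finite ℂ))).subset ?_
  rintro z ⟨-, j, hz⟩
  exact Set.mem_iUnion.2 ⟨j, mem_rootSet.2 ⟨hW.ne j, hz⟩⟩

include hW in
lemma finrank_oddU : Module.Finite ℚ (oddU P) ∧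
    Module.finrank ℚ (oddU P) ≤ pairNumber P := by
  classical
  have hfin := finite_pairs hW
  have : Fintype {z : ℂ | 0 < z.im ∧ ∃ j, aeval z (P j) = 0} := hfin.fintype
  let F : oddU P →ₗ[ℚ] ({z : ℂ | 0 < z.im ∧ ∃ j, aeval z (P j) = 0} → ℚ) :=
    { toFun := fun f x => f.1 () x.1
      map_add' := fun _ _ => rfl
      map_smul' := fun _ _ => rfl }
  have hF : Function.Injective F := by
    rw [← LinearMap.ker_eq_bot, eq_bot_iff]
    rintro ⟨f, hf⟩ h0
    rw [Submodule.mem_bot]
    apply Subtype.ext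
    have hpos : ∀ z : ℂ, 0 < z.im → f () z = 0 := by
      intro z hz
      by_cases h : ∃ j, aeval z (P j) = 0
      · exact congrFun (LinearMap.mem_ker.1 h0) ⟨z, hz, h⟩
      · push Not at h
        exact hf.1 z h
    funext u z
    obtain rfl : u = () := rfl
    change f () z = 0
    rcases lt_trichotomy z.im 0 with h | h | h
    · have h1 := hpos (starRingEnd ℂ z) (by rw [Complex.conj_im]; linarith)
      rw [hf.2] at h1
      linarith
    · have h1 := hf.2 z
      rw [Complex.conj_eq_iff_im.2 h] at h1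
      linarith
    · exact hpos z h
  refine ⟨Module.Finite.of_injective F hF, ?_⟩
  refine (LinearMap.finrank_le_finrank_of_injective hF).trans ?_
  rw [Module.finrank_fintype_fun_eq_card, pairNumber, Set.ncard_eq_toFinset_card',
    Set.toFinset_card]

variable {E : IntermediateField ℚ ℂ} (hE : ∀ j (z : ℂ), aeval z (P j) = 0 → z ∈ E)

lemma root_pm (σ : Gal(E/ℚ)) {f : ℚ[X]} {z : ℂ} : aeval ((pm E σ)⁻¹ z) f = 0 ↔ aeval z f = 0 := by
  by_cases hzE : z ∈ E
  · obtain ⟨z', rfl⟩ : ∃ z' : E, (z' : ℂ) = z := ⟨⟨z, hzE⟩, rfl⟩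
    rw [pm_inv_apply, root_coe, root_gal, ← root_coe E]
  · rw [← map_inv, pm_not_mem E _ hzE]

include hW hE in
lemma oddU_stable (σ : Gal(E/ℚ)) : ∀ f ∈ oddU P, fnRep E Unit σ f ∈ oddU P := by
  rintro f ⟨h1, h2⟩
  refine ⟨fun z hz => ?_, fun z => ?_⟩
  · rw [fnRep_apply]
    exact h1 _ (fun j h => hz j ((root_pm σ).1 h))
  · rw [fnRep_apply, fnRep_apply]
    by_cases hz : ∃ j, aeval z (P j) = 0
    · obtain ⟨j, hz⟩ := hz
      rw [pm_conj hW hE σ hz, h2]
    · push Not at hz
      rw [h1 _ (fun j h => hz j ((root_pm σ).1 h)),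
        h1 _ (fun j h => hz j (conj_root.1 ((root_pm σ).1 h))), neg_zero]

include hE in
lemma oddU_conj {c : Gal(E/ℚ)} (hc : ∀ z : E, ((c z : E) : ℂ) = starRingEnd ℂ (z : ℂ))
    {f : Unit → ℂ → ℚ} (hf : f ∈ oddU P) : fnRep E Unit c f = -f := by
  have hcc : ∀ z : E, c (c z) = z := by
    intro z
    apply Subtype.ext
    rw [hc, hc]
    exact Complex.conj_conj _
  funext u z
  rw [fnRep_apply]
  change _ = - f () z
  by_cases hz : ∃ j, aeval z (P j) = 0
  · obtain ⟨j, hz⟩ := hz
    obtain ⟨z', rfl⟩ : ∃ z' : E, (z' : ℂ) = z := ⟨⟨z, hE j z hz⟩, rfl⟩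
    have h1 : (c⁻¹ z' : E) = c z' := by
      change c.symm z' = c z'
      rw [AlgEquiv.symm_apply_eq, hcc]
    rw [pm_inv_apply, h1, hc]
    exact hf.2 _
  · push Not at hz
    rw [hf.1 z hz, neg_zero]
    exact hf.1 _ (fun j h => hz j ((root_pm c).1 h))

include hW hE in
/-- **All conjugacy classes are self-dual.** -/
theorem self_of_noInv [FiniteDimensional ℚ E] [Normal ℚ E]
    {K L' : Type*} [Field K] [Field L'] [CharZero L'] [Algebra K L'] (τ : E →+* L')
    {σ : Gal(E/ℚ)}
    (hσ : ∀ j, ∀ z : E, aeval z (P j) = 0 → minpoly K (τ (σ z)) = minpoly K (τ z))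
    (hnI : σ ∈ noInv E (oddU P)) (j : J) (x : L') (hx : aeval x (P j) = 0) :
    minpoly K x = minpoly K ((w j : L') / x) := by
  classical
  obtain ⟨c, hc⟩ := exists_conj E
  have hcc : ∀ z : E, c (c z) = z := by
    intro z
    apply Subtype.ext
    rw [hc, hc]
    exact Complex.conj_conj _
  obtain ⟨z, hz, rfl⟩ : ∃ z : E, aeval z (P j) = 0 ∧ τ z = x := by
    have h3 : x ∈ (P j).rootSet L' := by
      rw [mem_rootSet]
      exact ⟨hW.ne j, hx⟩
    rw [← (splits_E E hE j).image_rootSet (RingHom.toRatAlgHom τ)] at h3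
    obtain ⟨z, hz, hzx⟩ := h3
    exact ⟨z, (mem_rootSet.1 hz).2, hzx⟩
  have hcz : (w j : L') / τ z = τ (c z) := by
    rw [← map_natCast τ, ← map_div₀]
    congr 1
    apply Subtype.ext
    rw [hc, hW.conj_eq ((root_coe E).2 hz)]
    push_cast
    rfl
  rw [hcz]
  -- the function
  set R : Finset E := Finset.univ.biUnion (fun i => rootsE E (P i)) with hR
  have hmR : ∀ y : E, y ∈ R ↔ ∃ i, aeval y (P i) = 0 := by
    intro y
    rw [hR, Finset.mem_biUnion]
    constructor
    · rintro ⟨i, -, hi⟩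
      exact ⟨i, (mem_rootsE E (hW.ne i)).1 hi⟩
    · rintro ⟨i, hi⟩
      exact ⟨i, Finset.mem_univ _, (mem_rootsE E (hW.ne i)).2 hi⟩
  by_contra hne
  set O := R.filter (fun y => minpoly K (τ y) = minpoly K (τ z)) with hO
  have hOs : ∀ y ∈ O, σ y ∈ O := by
    intro y hy
    rw [hO, Finset.mem_filter, hmR] at hy ⊢
    obtain ⟨⟨i, hi⟩, hy2⟩ := hy
    exact ⟨⟨i, (root_gal E σ).2 hi⟩, by rw [hσ i y hi, hy2]⟩
  set f : Unit → ℂ → ℚ := fun _ y => (if y = (z : ℂ) then 1 else 0) -
    (if y = starRingEnd ℂ (z : ℂ) then 1 else 0) with hf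
  have hfm : f ∈ oddU P := by
    refine ⟨fun y hy => ?_, fun y => ?_⟩
    · rw [hf]
      beta_reduce
      rw [if_neg, if_neg, sub_zero]
      · rintro rfl
        exact hy j (conj_root.2 ((root_coe E).2 hz))
      · rintro rfl
        exact hy j ((root_coe E).2 hz)
    · rw [hf]
      beta_reduce
      rw [neg_sub]
      congr 1
      · congr 1
        apply propext
        constructor
        · intro h
          rw [← h, Complex.conj_conj]
        · intro h
          rw [h, Complex.conj_conj]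
      · congr 1
        apply propext
        exact (starRingEnd ℂ).injective.eq_iff
  have h1 := sum_stable E (oddU_stable hW hE) hnI hfm () O hOs
  rw [hf] at h1
  beta_reduce at h1
  rw [Finset.sum_sub_distrib] at h1
  have hzO : z ∈ O := by
    rw [hO, Finset.mem_filter, hmR]
    exact ⟨⟨j, hz⟩, rfl⟩
  rw [Finset.sum_eq_single_of_mem z hzO, Finset.sum_eq_zero] at h1
  · norm_num at h1
  · intro y hy
    rw [if_neg]
    intro h
    rw [← hc] at h
    have h2 : y = c z := Subtype.ext h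
    rw [hO, Finset.mem_filter, h2] at hy
    exact hne hy.2.symm
  · intro y _ hyz
    rw [if_neg]
    intro h
    exact hyz (Subtype.ext h)

end Pool.Agent.Helper11K9.Dens
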