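import Mathlib

/-!
# Exotic relations between Frobenius eigenvalues: definitions
-/

set_option autoImplicit false

namespace Pool.Agent.Helper11K9.Dens

open Polynomial

variable {J : Type} [Fintype J]

/-- The function `r`, with integral values `r j z` at the complex roots `z` of the polynomials `P j`
(and zero outside of the roots), is an exotic relation: `r j (conj z) = - r j z`, and for some common
multiple `N > 0` of the numbers `e j` the product of the numbers `z ^ ((N / e j) * r j z)` is one. So
it is a multiplicative relation up to roots of unity between the roots `z` of the `P j`, normalised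
to be eigenvalues of Frobenius endomorphisms relative to the same field, the roots of `P j` being
eigenvalues relative to the field with `p ^ e j` elements. -/
def IsExoticRelation (P : J → ℚ[X]) (e : J → ℕ) (r : J → ℂ → ℤ) : Prop :=
  (∀ j z, aeval z (P j) ≠ 0 → r j z = 0) ∧
  (∀ j z, r j (starRingEnd ℂ z) = - r j z) ∧
  ∃ N : ℕ, 0 < N ∧ (∀ j, e j ∣ N) ∧
    ∏ j, ∏ z ∈ ((P j).aroots ℂ).toFinset, z ^ (((N / e j : ℕ) : ℤ) * r j z) = 1

variable {I : Type} [Fintype I]

/-- The function `r` on the roots of the polynomials `P j` is an exotic relation relative to the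
polynomials `Q i`: there is a function `s` on the roots of the polynomials `Q i` such that `r` and `s`
together are an exotic relation for the family of all the `P j` and `Q i`. -/
def IsRelativeRelation (P : J → ℚ[X]) (e : J → ℕ) (Q : I → ℚ[X]) (e' : I → ℕ)
    (r : J → ℂ → ℤ) : Prop :=
  ∃ s : I → ℂ → ℤ, IsExoticRelation (Sum.elim P Q) (Sum.elim e e') (Sum.elim r s)

/-- The space spanned by the relative exotic relations. -/
def relativeSpace (P : J → ℚ[X]) (e : J → ℕ) (Q : I → ℚ[X]) (e' : I → ℕ) :
    Submodule ℚ (J → ℂ → ℚ) :=
  Submodule.span ℚ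
    {f | ∃ r : J → ℂ → ℤ, IsRelativeRelation P e Q e' r ∧ f = fun j z => (r j z : ℚ)}

/-- The maximal number of linearly independent relative exotic relations. -/
noncomputable def relativeRank (P : J → ℚ[X]) (e : J → ℕ) (Q : I → ℚ[X]) (e' : I → ℕ) : ℕ :=
  Module.finrank ℚ (relativeSpace P e Q e')

end Pool.Agent.Helper11K9.Dens
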